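import Pool.Agent.E8helper80.FL.One

set_option autoImplicit false

/-! From the von Mangoldt function to a fixed sieve model, without loss. -/

namespace Pool.Agent.E8helper80.FL
open Finset
open Pool.Agent.H807R2.Dav
open Pool.Agent.H373R2.T7

lemma pow_log_rpow (K : ℝ) (j : ℕ) (θ : ℝ) (hθ : 0 < θ) :
    ∃ w₀ : ℕ, ∀ w : ℕ, w₀ ≤ w → K * (1 + Real.log w) ^ j ≤ (w : ℝ) ^ θ := by
  have h1 : Filter.Tendsto (fun x : ℝ => (1 + Real.log x) ^ j / x ^ θ) Filter.atTop (nhds 0) := by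
    have h2 : (fun x : ℝ => 1 + Real.log x) =O[Filter.atTop] Real.log := by
      have h3 : (fun _ : ℝ => (1 : ℝ)) =O[Filter.atTop] Real.log := by
        apply Asymptotics.IsLittleO.isBigO
        rw [Asymptotics.isLittleO_const_left]
        right
        exact tendsto_norm_atTop_atTop.comp Real.tendsto_log_atTop
      exact h3.add (Asymptotics.isBigO_refl _ _)
    have h4 : (fun x : ℝ => (1 + Real.log x) ^ j) =O[Filter.atTop] (fun x => Real.log x ^ j) := h2.pow j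
    have h5 : (fun x : ℝ => Real.log x ^ j) =o[Filter.atTop] (fun x => x ^ θ) := by
      have h6 := isLittleO_log_rpow_rpow_atTop (s := θ) (j : ℝ) hθ
      refine h6.congr (fun x => ?_) (fun x => rfl)
      rw [Real.rpow_natCast]
    exact (h4.trans_isLittleO h5).tendsto_div_nhds_zero
  have h2 : Filter.Tendsto (fun w : ℕ => |K| * ((1 + Real.log (w : ℝ)) ^ j / (w : ℝ) ^ θ)) Filter.atTop (nhds 0) := by
    have h3 := (h1.comp tendsto_natCast_atTop_atTop).const_mul |K|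
    rw [mul_zero] at h3
    exact h3
  obtain ⟨N₀, h3⟩ := Filter.eventually_atTop.1 (h2.eventually_lt_const one_pos)
  refine ⟨N₀ + 1, fun w hw => ?_⟩
  have h4 := h3 w (by omega)
  have hw0 : (0 : ℝ) < (w : ℝ) ^ θ := by
    apply Real.rpow_pos_of_pos
    exact_mod_cast (by omega : 0 < w)
  have hl : 0 ≤ Real.log (w : ℝ) := Real.log_natCast_nonneg w
  rw [← mul_div_assoc, div_lt_one hw0] at h4
  have h6 : K * (1 + Real.log (w : ℝ)) ^ j ≤ |K| * (1 + Real.log (w : ℝ)) ^ j :=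
    mul_le_mul_of_nonneg_right (le_abs_self K) (by positivity)
  linarith

/-- the first moment of the difference of the products over the moving shifts -/
noncomputable def M1 {k : ℕ} (x : Fin k → ℕ) (s : Fin k → ℕ → ℤ) (A : ℕ) (G f g : ℕ → ℝ) : ℝ :=
  ∑ m ∈ Fintype.piFinset (fun i => Icc 1 (x i)), |∑ n ∈ Icc 1 A, G n * (∏ i, fI f (n + s i (m i)) - ∏ i, fI g (n + s i (m i)))|

lemma M1_tri {k : ℕ} (x : Fin k → ℕ) (s : Fin k → ℕ → ℤ) (A : ℕ) (G f g h : ℕ → ℝ) :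
    M1 x s A G f h ≤ M1 x s A G f g + M1 x s A G g h := by
  unfold M1
  rw [← sum_add_distrib]
  apply sum_le_sum
  intro m _
  refine le_trans (le_of_eq ?_) (abs_add_le _ _)
  rw [← sum_add_distrib]
  congr 1
  apply sum_congr rfl
  intro n _
  ring

lemma lamz_le_inv (z n : ℕ) : lamz z n ≤ (Vz z)⁻¹ := by
  unfold lamz
  split_ifs
  · exact le_rfl
  · exact (inv_pos.2 (Vz_pos z)).le

/-- two models of comparable levels -/
theorem two_models (k p B : ℕ) (C : ℝ) (hC : 0 ≤ C) : ∃ z₁ : ℕ, ∀ E : ℕ, ∃ N₀ : ℕ, ∀ N : ℕ, N₀ ≤ N → ∀ z z' : ℕ, z₁ ≤ z →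
    z ≤ z' → z' ≤ z ^ 2 → (z' : ℝ) ≤ Real.log N ^ E → ∀ (x : Fin k → ℕ) (s : Fin k → ℕ → ℤ),
    (∀ i, Fam p B C N (x i) (s i)) → ∀ A : ℕ, A ≤ N → ∀ G : ℕ → ℝ, (∀ n ∈ Icc 1 A, |G n| ≤ 1) →
    M1 x s A G (lamz z') (lamz z) ≤ (z : ℝ) ^ (-(1 / (16 * ((p : ℝ) + 1)))) * N * ∏ i, (x i : ℝ) := by
  obtain ⟨K0, hK0, hVK0⟩ := Vz_inv_log
  obtain ⟨K, hK⟩ : ∃ K : ℝ, K = 4 * K0 + 1 := ⟨_, rfl⟩
  obtain ⟨θ, hθ⟩ : ∃ θ : ℝ, θ = 1 / (16 * ((p : ℝ) + 1)) := ⟨_, rfl⟩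
  have hθ0 : 0 < θ := by rw [hθ]; positivity
  obtain ⟨K5, hK5⟩ : ∃ K5 : ℝ, K5 = k * K ^ k * ((4 * p + 5) * (B + 1) * C * (2 * (B + 1)) + 2 * (B + 1) * K) := ⟨_, rfl⟩
  have hK1 : 1 ≤ K := by linarith
  have hK50 : 0 ≤ K5 := by rw [hK5]; positivity
  obtain ⟨z₂, h2⟩ := pow_log_rpow K5 (2 * k + 2) θ hθ0
  obtain ⟨z₀, hsup⟩ := sup_model
  refine ⟨z₂ + z₀ + 3, fun E => ?_⟩
  obtain ⟨N₀, h0⟩ := hsup E
  refine ⟨N₀ + 3, fun N hN z z' hz hzz hzz2 hzE x s hF A hA G hG => ?_⟩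
  rw [← hθ]
  have hN1 : 1 ≤ N := by omega
  have hN3 : (3 : ℝ) ≤ N := by exact_mod_cast (by omega : 3 ≤ N)
  have hN0 : (0 : ℝ) < N := by linarith
  have hz3 : (3 : ℝ) ≤ z := by exact_mod_cast (by omega : 3 ≤ z)
  have hz0 : (0 : ℝ) < z := by linarith
  have hz1 : (1 : ℝ) ≤ z := by linarith
  have hzr : (z : ℝ) ≤ z' := by exact_mod_cast hzz
  obtain ⟨l, hl⟩ : ∃ l, l = 1 + Real.log (z : ℝ) := ⟨_, rfl⟩
  have hlz0 : 0 ≤ Real.log (z : ℝ) := Real.log_nonneg hz1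
  have hl1 : 1 ≤ l := by linarith
  have hlogz' : Real.log (z' : ℝ) ≤ 2 * Real.log z := by
    have h1 : (z' : ℝ) ≤ (z : ℝ) ^ 2 := by exact_mod_cast hzz2
    have h3 := Real.log_le_log (by linarith) h1
    rw [Real.log_pow] at h3
    exact_mod_cast h3
  have hlogz'0 : 0 ≤ Real.log (z' : ℝ) := Real.log_nonneg (by linarith)
  obtain ⟨V, hV⟩ : ∃ V, V = K * l ^ 2 := ⟨_, rfl⟩
  have hV1 : 1 ≤ V := by
    rw [hV]
    have : 1 ≤ l ^ 2 := one_le_pow₀ hl1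
    nlinarith
  have hVb : ∀ u : ℕ, 3 ≤ u → Real.log (u : ℝ) ≤ 2 * l → (Vz u)⁻¹ ≤ V := by
    intro u hu hlu
    refine (hVK0 u hu).trans ?_
    have h1 : 0 ≤ Real.log (u : ℝ) := Real.log_natCast_nonneg u
    have h3 : Real.log (u : ℝ) ^ 2 ≤ (2 * l) ^ 2 := pow_le_pow_left₀ h1 hlu 2
    rw [hV, hK]
    nlinarith [mul_le_mul_of_nonneg_left h3 hK0.le, sq_nonneg l]
  have hVz := hVb z (by omega) (by linarith)
  have hVz' := hVb z' (by omega) (by linarith)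
  obtain ⟨H, hH⟩ : ∃ H : ℕ, H = 2 * ((B + 1) * N) := ⟨_, rfl⟩
  have hHN : N ≤ H := by
    rw [hH]
    nlinarith
  have hHr : (H : ℝ) = 2 * (B + 1) * N := by rw [hH]; push_cast; ring
  have hsup1 : ∀ α : ℝ, ‖∑ n ∈ Icc 1 (2 * ((B + 1) * N)), ((lamz z' n - lamz z n : ℝ) : ℂ) * ee ((n : ℝ) * α)‖ ≤
      (2 * (B + 1) / √(z : ℝ)) * N := by
    intro α
    have h1 := h0 H (by omega) z z' (by omega) hzz hzz2 (by
      refine hzE.trans (pow_le_pow_left₀ (Real.log_nonneg (by linarith)) ?_ _)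
      exact Real.log_le_log hN0 (by exact_mod_cast hHN)) α
    rw [hH] at h1
    refine h1.trans (le_of_eq ?_)
    push_cast
    ring
  obtain ⟨η, hη⟩ : ∃ η, η = (z : ℝ) ^ (-(2 * θ)) := ⟨_, rfl⟩
  have hη0 : 0 < η := by rw [hη]; exact Real.rpow_pos_of_pos hz0 _
  have key := swap p B C hC N hN1 x s hF A hA (lamz z') (lamz z) (2 * (B + 1) / √(z : ℝ)) V hsup1 hV1
    (fun n _ => ⟨lamz_nonneg _ _, (lamz_le_inv _ _).trans hVz'⟩)
    (fun n _ => ⟨lamz_nonneg _ _, (lamz_le_inv _ _).trans hVz⟩) η hη0 G hG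
  unfold M1
  refine key.trans ?_
  have hprod : 0 ≤ ∏ i, (x i : ℝ) := prod_nonneg fun _ _ => Nat.cast_nonneg _
  apply mul_le_mul_of_nonneg_right _ hprod
  apply mul_le_mul_of_nonneg_right _ hN0.le
  -- numerics
  have hη1 : 2 * ((B : ℝ) + 1) / √(z : ℝ) / η ^ (2 * p) ≤ 2 * (B + 1) * η := by
    have e1 : √(z : ℝ) = (z : ℝ) ^ (1 / 2 : ℝ) := Real.sqrt_eq_rpow _
    have e2 : η ^ (2 * p) = (z : ℝ) ^ (-(2 * θ) * (2 * p : ℕ)) := by
      rw [hη, ← Real.rpow_natCast, ← Real.rpow_mul hz0.le]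
    have hzp : 0 < (z : ℝ) ^ (1 / 2 : ℝ) := Real.rpow_pos_of_pos hz0 _
    have hzq : 0 < (z : ℝ) ^ (-(2 * θ) * (2 * p : ℕ)) := Real.rpow_pos_of_pos hz0 _
    rw [e1, e2, div_div, div_le_iff₀ (mul_pos hzp hzq), hη]
    rw [mul_assoc (2 * ((B : ℝ) + 1)), ← Real.rpow_add hz0, ← Real.rpow_add hz0]
    have h3 : (1 : ℝ) ≤ (z : ℝ) ^ (-(2 * θ) + (1 / 2 + -(2 * θ) * (2 * p : ℕ))) := by
      apply Real.one_le_rpow hz1
      have h4 : θ * (16 * (p + 1)) = 1 := by rw [hθ]; field_simp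
      push_cast
      have h5 : (0 : ℝ) ≤ p := Nat.cast_nonneg _
      nlinarith
    have h4 : (0 : ℝ) ≤ 2 * ((B : ℝ) + 1) := by positivity
    nlinarith
  have hVk : V ^ k = K ^ k * l ^ (2 * k) := by rw [hV, mul_pow, ← pow_mul]
  have hl2 : 1 ≤ l ^ 2 := one_le_pow₀ hl1
  have h3 : (4 * (p : ℝ) + 5) * (B + 1) * C * (2 * (B + 1) / √(z : ℝ)) / η ^ (2 * p) + 2 * (B + 1) * η * V ≤
      ((4 * p + 5) * (B + 1) * C * (2 * (B + 1)) + 2 * (B + 1) * K) * l ^ 2 * η := by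
    have h4 : (4 * (p : ℝ) + 5) * (B + 1) * C * (2 * (B + 1) / √(z : ℝ)) / η ^ (2 * p) ≤
        (4 * p + 5) * (B + 1) * C * (2 * (B + 1)) * l ^ 2 * η := by
      calc (4 * (p : ℝ) + 5) * (B + 1) * C * (2 * (B + 1) / √(z : ℝ)) / η ^ (2 * p) =
            ((4 * (p : ℝ) + 5) * (B + 1) * C) * (2 * (B + 1) / √(z : ℝ) / η ^ (2 * p)) := by ring
        _ ≤ ((4 * (p : ℝ) + 5) * (B + 1) * C) * (2 * (B + 1) * η) := mul_le_mul_of_nonneg_left hη1 (by positivity)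
        _ = ((4 * (p : ℝ) + 5) * (B + 1) * C) * (2 * (B + 1)) * η * 1 := by ring
        _ ≤ ((4 * (p : ℝ) + 5) * (B + 1) * C) * (2 * (B + 1)) * η * l ^ 2 := mul_le_mul_of_nonneg_left hl2 (by positivity)
        _ = _ := by ring
    calc _ ≤ (4 * p + 5) * (B + 1) * C * (2 * (B + 1)) * l ^ 2 * η + 2 * (B + 1) * η * (K * l ^ 2) := by
          rw [← hV]; linarith
      _ = _ := by ring
  calc (k : ℝ) * V ^ k * ((4 * (p : ℝ) + 5) * (B + 1) * C * (2 * (B + 1) / √(z : ℝ)) / η ^ (2 * p) + 2 * (B + 1) * η * V) ≤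
        k * V ^ k * (((4 * p + 5) * (B + 1) * C * (2 * (B + 1)) + 2 * (B + 1) * K) * l ^ 2 * η) :=
        mul_le_mul_of_nonneg_left h3 (by positivity)
    _ = (K5 * l ^ (2 * k + 2)) * η := by rw [hVk, hK5, pow_add]; ring
    _ ≤ (z : ℝ) ^ θ * η := by
        apply mul_le_mul_of_nonneg_right _ hη0.le
        have := h2 z (by omega)
        rw [← hl] at this
        exact this
    _ = (z : ℝ) ^ (-θ) := by
        rw [hη, ← Real.rpow_add hz0]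
        congr 1
        ring

lemma chain_pow (z j : ℕ) (hz : 2 ≤ z) : z * 2 ^ j ≤ z ^ 2 ^ j := by
  have h1 : j + 1 ≤ 2 ^ j := Nat.lt_two_pow_self
  calc z * 2 ^ j ≤ z * z ^ j := Nat.mul_le_mul_left _ (Nat.pow_le_pow_left hz j)
    _ = z ^ (j + 1) := by rw [pow_succ]; ring
    _ ≤ z ^ 2 ^ j := Nat.pow_le_pow_right (by omega) h1

/-- the chain of models -/
theorem chain (k p B : ℕ) (C : ℝ) (hC : 0 ≤ C) : ∃ z₁ : ℕ, ∀ E : ℕ, ∃ N₀ : ℕ, ∀ N : ℕ, N₀ ≤ N → ∀ z : ℕ, z₁ ≤ z →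
    ∀ J : ℕ, ((z ^ 2 ^ J : ℕ) : ℝ) ≤ Real.log N ^ E → ∀ (x : Fin k → ℕ) (s : Fin k → ℕ → ℤ),
    (∀ i, Fam p B C N (x i) (s i)) → ∀ A : ℕ, A ≤ N → ∀ G : ℕ → ℝ, (∀ n ∈ Icc 1 A, |G n| ≤ 1) →
    M1 x s A G (lamz (z ^ 2 ^ J)) (lamz z) ≤ 1 / 2 * (z : ℝ) ^ (-(1 / (32 * ((p : ℝ) + 1)))) * N * ∏ i, (x i : ℝ) := by
  obtain ⟨z₁, hz₁⟩ := two_models k p B C hC
  obtain ⟨θ, hθ⟩ : ∃ θ : ℝ, θ = 1 / (16 * ((p : ℝ) + 1)) := ⟨_, rfl⟩
  have hθ0 : 0 < θ := by rw [hθ]; positivity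
  have hθ2 : 1 / (32 * ((p : ℝ) + 1)) = θ / 2 := by rw [hθ]; field_simp; norm_num
  obtain ⟨r, hr⟩ : ∃ r : ℝ, r = (2 : ℝ) ^ (-θ) := ⟨_, rfl⟩
  have hr0 : 0 < r := by rw [hr]; positivity
  have hr1 : r < 1 := by rw [hr]; exact Real.rpow_lt_one_of_one_lt_of_neg (by norm_num) (by linarith)
  obtain ⟨z₂, hz₂⟩ := pow_log_rpow (2 / (1 - r)) 0 (θ / 2) (by positivity)
  refine ⟨z₁ + z₂ + 2, fun E => ?_⟩
  obtain ⟨N₀, h0⟩ := hz₁ E
  refine ⟨N₀, fun N hN z hz J hJ x s hF A hA G hG => ?_⟩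
  have hz0 : (0 : ℝ) < z := by exact_mod_cast (by omega : 0 < z)
  have hprod : 0 ≤ ∏ i, (x i : ℝ) := prod_nonneg fun _ _ => Nat.cast_nonneg _
  have hNP : 0 ≤ (N : ℝ) * ∏ i, (x i : ℝ) := mul_nonneg (Nat.cast_nonneg _) hprod
  have hind : ∀ j : ℕ, j ≤ J → M1 x s A G (lamz (z ^ 2 ^ j)) (lamz z) ≤
      ((z : ℝ) ^ (-θ) * ∑ i ∈ range j, r ^ i) * (N * ∏ i, (x i : ℝ)) := by
    intro j
    induction j with
    | zero =>
      intro _
      rw [pow_zero, pow_one, range_zero, sum_empty, mul_zero, zero_mul]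
      unfold M1
      simp
    | succ j ih =>
      intro hj
      refine (M1_tri x s A G _ (lamz (z ^ 2 ^ j)) _).trans ?_
      have hzj : z ≤ z ^ 2 ^ j := by
        have := chain_pow z j (by omega)
        have h3 : 1 ≤ 2 ^ j := Nat.one_le_two_pow
        nlinarith
      have hle : z ^ 2 ^ (j + 1) ≤ z ^ 2 ^ J := Nat.pow_le_pow_right (by omega) (Nat.pow_le_pow_right (by norm_num) hj)
      have h1 := h0 N hN (z ^ 2 ^ j) (z ^ 2 ^ (j + 1)) (by omega)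
        (Nat.pow_le_pow_right (by omega) (Nat.pow_le_pow_right (by norm_num) (by omega)))
        (le_of_eq (by rw [← pow_mul, pow_succ])) (le_trans (by exact_mod_cast hle) hJ) x s hF A hA G hG
      rw [← hθ] at h1
      have h2 := ih (by omega)
      have h3 : ((z ^ 2 ^ j : ℕ) : ℝ) ^ (-θ) ≤ (z : ℝ) ^ (-θ) * r ^ j := by
        have e1 : (z : ℝ) ^ (-θ) * r ^ j = (((z * 2 ^ j : ℕ) : ℝ)) ^ (-θ) := by
          push_cast
          rw [Real.mul_rpow hz0.le (by positivity), hr, ← Real.rpow_natCast, ← Real.rpow_mul (by norm_num),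
            ← Real.rpow_natCast (2 : ℝ) j, ← Real.rpow_mul (by norm_num), mul_comm (-θ) (j : ℝ)]
        rw [e1]
        apply Real.rpow_le_rpow_of_nonpos (by exact_mod_cast Nat.mul_pos (by omega) (by positivity)) _ (by linarith)
        exact_mod_cast chain_pow z j (by omega)
      rw [sum_range_succ]
      have h4 := mul_le_mul_of_nonneg_right h3 hNP
      calc _ ≤ ((z ^ 2 ^ j : ℕ) : ℝ) ^ (-θ) * N * ∏ i, (x i : ℝ) +
            ((z : ℝ) ^ (-θ) * ∑ i ∈ range j, r ^ i) * (N * ∏ i, (x i : ℝ)) := add_le_add h1 h2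
        _ ≤ _ := by
            rw [mul_assoc]
            refine (add_le_add h4 le_rfl).trans (le_of_eq ?_)
            ring
  have h1 := hind J le_rfl
  refine h1.trans ?_
  rw [mul_assoc (1 / 2 * _) (N : ℝ)]
  apply mul_le_mul_of_nonneg_right _ hNP
  have hgeo : ∑ i ∈ range J, r ^ i ≤ 1 / (1 - r) := by
    rw [geom_sum_eq hr1.ne, ← neg_div_neg_eq, neg_sub, neg_sub]
    apply div_le_div_of_nonneg_right _ (by linarith)
    have : 0 < r ^ J := by positivity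
    linarith
  have h2 := hz₂ z (by omega)
  rw [pow_zero, mul_one] at h2
  rw [hθ2]
  have h3 : (z : ℝ) ^ (-θ) = (z : ℝ) ^ (-(θ / 2)) * (z : ℝ) ^ (-(θ / 2)) := by
    rw [← Real.rpow_add hz0]
    congr 1
    ring
  have h4 : (z : ℝ) ^ (-(θ / 2)) * (z : ℝ) ^ (θ / 2) = 1 := by
    rw [← Real.rpow_add hz0, neg_add_cancel, Real.rpow_zero]
  have h5 : 0 < (z : ℝ) ^ (-(θ / 2)) := Real.rpow_pos_of_pos hz0 _
  have h6 : (z : ℝ) ^ (-(θ / 2)) * (1 / (1 - r)) ≤ 1 / 2 := by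
    have h7 := mul_le_mul_of_nonneg_left h2 h5.le
    rw [h4] at h7
    have h8 : (z : ℝ) ^ (-(θ / 2)) * (2 / (1 - r)) = 2 * ((z : ℝ) ^ (-(θ / 2)) * (1 / (1 - r))) := by ring
    linarith
  calc (z : ℝ) ^ (-θ) * ∑ i ∈ range J, r ^ i ≤ (z : ℝ) ^ (-θ) * (1 / (1 - r)) :=
        mul_le_mul_of_nonneg_left hgeo (Real.rpow_pos_of_pos hz0 _).le
    _ = (z : ℝ) ^ (-(θ / 2)) * ((z : ℝ) ^ (-(θ / 2)) * (1 / (1 - r))) := by rw [h3]; ring
    _ ≤ (z : ℝ) ^ (-(θ / 2)) * (1 / 2) := mul_le_mul_of_nonneg_left h6 h5.le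
    _ = _ := by ring

end Pool.Agent.E8helper80.FL
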