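import Mathlib

set_option autoImplicit false

/-! Chowla's conjecture implies its version in residue classes. -/

namespace Pool.Agent.E8helper80.FL
open Finset
open scoped symmDiff

/-- The Liouville function. -/
noncomputable def lio (n : ℕ) : ℝ := (-1) ^ ArithmeticFunction.cardFactors n

lemma lio_sq (n : ℕ) : lio n * lio n = 1 := by
  unfold lio
  rw [← pow_add, ← two_mul, pow_mul, neg_one_sq, one_pow]

lemma lio_abs (n : ℕ) : |lio n| = 1 := by
  unfold lio
  rw [abs_pow, abs_neg, abs_one, one_pow]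

/-- the product over a set of shifts -/
noncomputable def pl (L : Finset ℕ) (n : ℕ) : ℝ := ∏ l ∈ L, lio (n + l)

lemma pl_abs (L : Finset ℕ) (n : ℕ) : |pl L n| = 1 := by
  unfold pl
  rw [abs_prod]
  simp only [lio_abs, prod_const_one]

lemma pl_mul (A B : Finset ℕ) (n : ℕ) : pl A n * pl B n = pl (A ∆ B) n := by
  unfold pl
  have h1 : ∏ l ∈ A, lio (n + l) = (∏ l ∈ A ∩ B, lio (n + l)) * ∏ l ∈ A \ B, lio (n + l) :=
    (prod_inter_mul_prod_sdiff A B _).symm
  have h2 : ∏ l ∈ B, lio (n + l) = (∏ l ∈ A ∩ B, lio (n + l)) * ∏ l ∈ B \ A, lio (n + l) := by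
    rw [inter_comm]
    exact (prod_inter_mul_prod_sdiff B A _).symm
  have h3 : A ∆ B = (A \ B) ∪ (B \ A) := rfl
  have h4 : Disjoint (A \ B) (B \ A) := by
    rw [disjoint_left]
    intro x hx hx'
    exact (mem_sdiff.1 hx).2 (mem_sdiff.1 hx').1
  rw [h3, prod_union h4, h1, h2]
  have h5 : (∏ l ∈ A ∩ B, lio (n + l)) * (∏ l ∈ A ∩ B, lio (n + l)) = 1 := by
    rw [← prod_mul_distrib]
    exact prod_eq_one fun l _ => lio_sq _
  calc _ = ((∏ l ∈ A ∩ B, lio (n + l)) * (∏ l ∈ A ∩ B, lio (n + l))) * ((∏ l ∈ A \ B, lio (n + l)) * ∏ l ∈ B \ A, lio (n + l)) := by ring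
    _ = _ := by rw [h5, one_mul]

lemma pl_shift (L : Finset ℕ) (n h : ℕ) : pl L (n + h) = pl (L.image (fun l => l + h)) n := by
  unfold pl
  rw [prod_image (fun l _ l' _ hl => by simpa using hl)]
  apply prod_congr rfl
  intro l _
  rw [add_assoc, add_comm h l]

lemma shift_ne (L : Finset ℕ) (hL : L.Nonempty) (h h' : ℕ) (hh : h ≠ h') :
    (L.image (fun l => l + h) ∆ L.image (fun l => l + h')).Nonempty := by
  rw [nonempty_iff_ne_empty]
  intro he
  have h1 : L.image (fun l => l + h) = L.image (fun l => l + h') := symmDiff_eq_bot.1 he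
  have h2 : ∀ h : ℕ, ∑ l ∈ L.image (fun l => l + h), l = ∑ l ∈ L, l + L.card * h := by
    intro h
    rw [sum_image (fun l _ l' _ hl => by simpa using hl), sum_add_distrib, sum_const, smul_eq_mul]
  have h3 := h2 h
  rw [h1, h2 h'] at h3
  have h4 : L.card * h' = L.card * h := by omega
  exact hh (Nat.eq_of_mul_eq_mul_left hL.card_pos h4).symm

/-- Chowla's conjecture -/
def Chow : Prop := ∀ L : Finset ℕ, L.Nonempty → ∀ ε : ℝ, 0 < ε → ∃ N₀ : ℕ, ∀ N : ℕ, N₀ ≤ N →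
  |∑ n ∈ Icc 1 N, pl L n| ≤ ε * N

lemma chow_seg (hC : Chow) (L : Finset ℕ) (hL : L.Nonempty) (ε : ℝ) (hε : 0 < ε) : ∃ N₀ : ℕ, ∀ N : ℕ, N₀ ≤ N →
    ∀ X : ℕ, X ≤ N → |∑ n ∈ Icc 1 X, pl L n| ≤ ε * N := by
  obtain ⟨N₀, h0⟩ := hC L hL ε hε
  obtain ⟨N₁, h1⟩ := exists_nat_ge (N₀ / ε)
  refine ⟨N₁, fun N hN X hX => ?_⟩
  have hNr : (N₁ : ℝ) ≤ N := by exact_mod_cast hN
  have hXr : (X : ℝ) ≤ N := by exact_mod_cast hX
  rcases le_or_gt N₀ X with h2 | h2
  · exact (h0 X h2).trans (mul_le_mul_of_nonneg_left hXr hε.le)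
  · have h3 : |∑ n ∈ Icc 1 X, pl L n| ≤ X := by
      refine (abs_sum_le_sum_abs _ _).trans ?_
      simp only [pl_abs, sum_const, Nat.card_Icc, nsmul_eq_mul, mul_one, Nat.add_sub_cancel, le_refl]
    have h4 : (X : ℝ) ≤ N₀ := by exact_mod_cast h2.le
    rw [div_le_iff₀ hε] at h1
    nlinarith

/-- shifting the variable -/
lemma shift_sum (f : ℕ → ℝ) (hf : ∀ n, |f n| ≤ 1) (X h : ℕ) :
    |∑ n ∈ Icc 1 X, f n - ∑ n ∈ Icc 1 X, f (n + h)| ≤ 2 * h := by
  have h1 : ∑ n ∈ Icc 1 X, f (n + h) = ∑ n ∈ Icc (1 + h) (X + h), f n := by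
    apply sum_nbij (fun n => n + h)
    · intro n hn
      rw [mem_Icc] at hn ⊢
      omega
    · intro n _ n' _ hh
      simpa using hh
    · intro n hn
      rw [mem_coe, mem_Icc] at hn
      exact ⟨n - h, by rw [mem_coe, mem_Icc]; omega, by simp only; omega⟩
    · intro n _
      rfl
  have hb : ∀ a b : ℕ, |∑ n ∈ Icc (a + 1) b, f n| ≤ ((b - a : ℕ) : ℝ) := by
    intro a b
    refine (abs_sum_le_sum_abs _ _).trans ((sum_le_sum fun n _ => hf n).trans (le_of_eq ?_))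
    rw [sum_const, Nat.card_Icc, nsmul_eq_mul, mul_one]
    congr 1
    omega
  have h2 : ∑ n ∈ Icc 1 (X + h), f n = ∑ n ∈ Icc 1 X, f n + ∑ n ∈ Icc (X + 1) (X + h), f n := by
    rw [← sum_union]
    · congr 1
      ext n
      rw [mem_union, mem_Icc, mem_Icc, mem_Icc]
      omega
    · rw [disjoint_left]
      intro n hn hn'
      rw [mem_Icc] at hn hn'
      omega
  have h3 : ∑ n ∈ Icc 1 (X + h), f n = ∑ n ∈ Icc (0 + 1) h, f n + ∑ n ∈ Icc (1 + h) (X + h), f n := by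
    rw [← sum_union]
    · congr 1
      ext n
      rw [mem_union, mem_Icc, mem_Icc, mem_Icc]
      omega
    · rw [disjoint_left]
      intro n hn hn'
      rw [mem_Icc] at hn hn'
      omega
  have e1 := hb X (X + h)
  have e2 := hb 0 h
  rw [Nat.add_sub_cancel_left] at e1
  rw [Nat.sub_zero] at e2
  rw [h1]
  have h4 : ∑ n ∈ Icc 1 X, f n - ∑ n ∈ Icc (1 + h) (X + h), f n =
      ∑ n ∈ Icc (0 + 1) h, f n - ∑ n ∈ Icc (X + 1) (X + h), f n := by linarith
  rw [h4]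
  refine (abs_sub _ _).trans ?_
  linarith

/-- **Chowla's conjecture in residue classes** -/
theorem chow_ap (hC : Chow) (L : Finset ℕ) (hL : L.Nonempty) (q : ℕ) (hq : 1 ≤ q) (a : ℕ) (ε : ℝ) (hε : 0 < ε) :
    ∃ N₀ : ℕ, ∀ N : ℕ, N₀ ≤ N → ∀ X : ℕ, X ≤ N →
      |∑ n ∈ (Icc 1 X).filter (fun n => n % q = a), pl L n| ≤ ε * N := by
  obtain ⟨H, hH⟩ := exists_nat_gt (8 / ε ^ 2)
  have hH0 : (0 : ℝ) < H := lt_trans (by positivity) hH
  obtain ⟨δ, hδ⟩ : ∃ δ : ℝ, δ = ε ^ 2 / 8 := ⟨_, rfl⟩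
  have hδ0 : 0 < δ := by rw [hδ]; positivity
  have hex : ∀ j j' : ℕ, ∃ N₀ : ℕ, j ≠ j' → ∀ N : ℕ, N₀ ≤ N → ∀ X : ℕ, X ≤ N →
      |∑ n ∈ Icc 1 X, pl (L.image (fun l => l + q * j) ∆ L.image (fun l => l + q * j')) n| ≤ δ * N := by
    intro j j'
    by_cases hjj : j = j'
    · exact ⟨0, fun h => absurd hjj h⟩
    · obtain ⟨N₀, h0⟩ := chow_seg hC _ (shift_ne L hL (q * j) (q * j') (fun h => hjj (Nat.eq_of_mul_eq_mul_left (by omega) h))) δ hδ0
      exact ⟨N₀, fun _ => h0⟩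
  choose M hM using hex
  obtain ⟨N₂, hN₂⟩ := exists_nat_ge (4 * q * H / ε)
  refine ⟨(range H).sup (fun j => (range H).sup (M j)) + N₂ + 1, fun N hN X hX => ?_⟩
  have hN0 : (0 : ℝ) < N := by exact_mod_cast (by omega : 0 < N)
  have hXr : (X : ℝ) ≤ N := by exact_mod_cast hX
  obtain ⟨u, hu⟩ : ∃ u : ℕ → ℝ, u = fun n => if n % q = a then 1 else 0 := ⟨_, rfl⟩
  have hu1 : ∀ n, |u n| ≤ 1 := by
    intro n
    rw [hu]
    simp only
    split_ifs <;> simp
  have hup : ∀ n j, u (n + q * j) = u n := by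
    intro n j
    rw [hu]
    simp only [Nat.add_mul_mod_self_left]
  obtain ⟨S, hS⟩ : ∃ S, S = ∑ n ∈ Icc 1 X, u n * pl L n := ⟨_, rfl⟩
  have hSe : ∑ n ∈ (Icc 1 X).filter (fun n => n % q = a), pl L n = S := by
    rw [hS, sum_filter, hu]
    apply sum_congr rfl
    intro n _
    rw [ite_mul, one_mul, zero_mul]
  rw [hSe]
  -- averaging over the shifts
  have h1 : |H * S - ∑ n ∈ Icc 1 X, u n * ∑ j ∈ range H, pl L (n + q * j)| ≤ 2 * (q * H) * H := by
    have e1 : H * S - ∑ n ∈ Icc 1 X, u n * ∑ j ∈ range H, pl L (n + q * j) =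
        ∑ j ∈ range H, (∑ n ∈ Icc 1 X, u n * pl L n - ∑ n ∈ Icc 1 X, u (n + q * j) * pl L (n + q * j)) := by
      rw [sum_sub_distrib, sum_const, card_range, nsmul_eq_mul, ← hS]
      congr 1
      rw [sum_comm]
      apply sum_congr rfl
      intro n _
      rw [mul_sum]
      apply sum_congr rfl
      intro j _
      rw [hup]
    rw [e1]
    refine (abs_sum_le_sum_abs _ _).trans ?_
    have e2 : ∀ j ∈ range H, |∑ n ∈ Icc 1 X, u n * pl L n - ∑ n ∈ Icc 1 X, u (n + q * j) * pl L (n + q * j)| ≤ 2 * (q * H) := by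
      intro j hj
      rw [mem_range] at hj
      refine (shift_sum (fun n => u n * pl L n) (fun n => by
        rw [abs_mul, pl_abs, mul_one]; exact hu1 n) X (q * j)).trans ?_
      push_cast
      have : (j : ℝ) ≤ H := by exact_mod_cast hj.le
      have : (q : ℝ) * j ≤ q * H := mul_le_mul_of_nonneg_left this (Nat.cast_nonneg _)
      linarith
    refine (sum_le_sum e2).trans (le_of_eq ?_)
    rw [sum_const, card_range, nsmul_eq_mul]
    ring
  -- the mean square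
  have h2 : ∑ n ∈ Icc 1 X, (∑ j ∈ range H, pl L (n + q * j)) ^ 2 ≤ (H + H ^ 2 * δ) * N := by
    have e1 : ∑ n ∈ Icc 1 X, (∑ j ∈ range H, pl L (n + q * j)) ^ 2 =
        ∑ j ∈ range H, ∑ j' ∈ range H, ∑ n ∈ Icc 1 X, pl (L.image (fun l => l + q * j) ∆ L.image (fun l => l + q * j')) n := by
      have e2 : ∀ n ∈ Icc 1 X, (∑ j ∈ range H, pl L (n + q * j)) ^ 2 =
          ∑ j ∈ range H, ∑ j' ∈ range H, pl (L.image (fun l => l + q * j) ∆ L.image (fun l => l + q * j')) n := by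
        intro n _
        rw [pow_two, sum_mul_sum]
        apply sum_congr rfl
        intro j _
        apply sum_congr rfl
        intro j' _
        rw [pl_shift, pl_shift, pl_mul]
      rw [sum_congr rfl e2, sum_comm]
      apply sum_congr rfl
      intro j _
      rw [sum_comm]
    rw [e1]
    have e3 : ∀ j ∈ range H, ∑ j' ∈ range H, ∑ n ∈ Icc 1 X, pl (L.image (fun l => l + q * j) ∆ L.image (fun l => l + q * j')) n ≤
        N + H * (δ * N) := by
      intro j hj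
      have e4 : ∀ j' ∈ range H, ∑ n ∈ Icc 1 X, pl (L.image (fun l => l + q * j) ∆ L.image (fun l => l + q * j')) n ≤
          (if j' = j then (N : ℝ) else 0) + δ * N := by
        intro j' hj'
        split_ifs with hjj
        · have e5 : ∑ n ∈ Icc 1 X, pl (L.image (fun l => l + q * j) ∆ L.image (fun l => l + q * j')) n ≤ X := by
            refine (sum_le_sum fun n _ => (le_abs_self _).trans (pl_abs _ n).le).trans (le_of_eq ?_)
            rw [sum_const, Nat.card_Icc, nsmul_eq_mul, mul_one, Nat.add_sub_cancel]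
          have : 0 ≤ δ * N := by positivity
          linarith
        · rw [zero_add]
          refine (le_abs_self _).trans (hM j j' (fun h => hjj h.symm) N ?_ X hX)
          have e5 : M j j' ≤ (range H).sup (M j) := le_sup (f := M j) hj'
          have e6 : (range H).sup (M j) ≤ (range H).sup (fun j => (range H).sup (M j)) := le_sup (f := fun j => (range H).sup (M j)) hj
          omega
      refine (sum_le_sum e4).trans (le_of_eq ?_)
      rw [sum_add_distrib, sum_ite_eq' (range H) j, if_pos hj, sum_const, card_range, nsmul_eq_mul]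
    refine (sum_le_sum e3).trans (le_of_eq ?_)
    rw [sum_const, card_range, nsmul_eq_mul]
    ring
  have h3 : (∑ n ∈ Icc 1 X, u n * ∑ j ∈ range H, pl L (n + q * j)) ^ 2 ≤ N * ((H + H ^ 2 * δ) * N) := by
    refine (sum_mul_sq_le_sq_mul_sq (Icc 1 X) u (fun n => ∑ j ∈ range H, pl L (n + q * j))).trans ?_
    apply mul_le_mul _ h2 (sum_nonneg fun _ _ => sq_nonneg _) hN0.le
    have e1 : ∀ n ∈ Icc 1 X, u n ^ 2 ≤ 1 := by
      intro n _
      rw [← sq_abs]
      exact pow_le_one₀ (abs_nonneg _) (hu1 n)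
    refine (sum_le_sum e1).trans ?_
    rw [sum_const, Nat.card_Icc, nsmul_eq_mul, mul_one, Nat.add_sub_cancel]
    exact hXr
  have h4 : (∑ n ∈ Icc 1 X, u n * ∑ j ∈ range H, pl L (n + q * j)) ^ 2 ≤ (ε / 2 * (H * N)) ^ 2 := by
    refine h3.trans ?_
    have e1 : (H : ℝ) ≤ H ^ 2 * (ε ^ 2 / 8) := by
      have : 1 ≤ H * (ε ^ 2 / 8) := by
        rw [div_lt_iff₀ (by positivity)] at hH
        linarith
      nlinarith
    have e2 : (H + H ^ 2 * δ) ≤ (ε / 2) ^ 2 * (H : ℝ) ^ 2 := by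
      rw [hδ]
      nlinarith
    calc N * ((H + H ^ 2 * δ) * N) ≤ N * (((ε / 2) ^ 2 * (H : ℝ) ^ 2) * N) := by gcongr
      _ = _ := by ring
  have h5 : |∑ n ∈ Icc 1 X, u n * ∑ j ∈ range H, pl L (n + q * j)| ≤ ε / 2 * (H * N) :=
    abs_le_of_sq_le_sq h4 (by positivity)
  have h6 : |H * S| ≤ ε * (H * N) := by
    have e1 : H * S = (H * S - ∑ n ∈ Icc 1 X, u n * ∑ j ∈ range H, pl L (n + q * j)) +
        ∑ n ∈ Icc 1 X, u n * ∑ j ∈ range H, pl L (n + q * j) := by ring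
    rw [e1]
    refine (abs_add_le _ _).trans ?_
    have e2 : 2 * (q * H) * H ≤ ε / 2 * (H * (N : ℝ)) := by
      have e3 : (N₂ : ℝ) ≤ N := by exact_mod_cast (by omega : N₂ ≤ N)
      have e4 : 4 * (q : ℝ) * H ≤ N * ε := by
        have := hN₂.trans e3
        rwa [div_le_iff₀ hε] at this
      nlinarith
    linarith
  rw [abs_mul, abs_of_pos hH0] at h6
  have h7 : H * |S| ≤ H * (ε * N) := by linarith
  exact le_of_mul_le_mul_left h7 hH0

end Pool.Agent.E8helper80.FL
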