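import Pool.Agent.E8helper80.FL.Crit

set_option autoImplicit false

/-! The criterion: from one moving shift of the von Mangoldt function to the residue classes. -/

namespace Pool.Agent.E8helper80.FL
open Finset
open Pool.Agent.H807R2.Dav
open Pool.Agent.H373R2.T7

/-- the von Mangoldt function at the shifts in a residue class -/
lemma shifts_ap (d : ℕ) (hd : 1 ≤ d) (b : ℕ) (ε : ℝ) (hε : 0 < ε) : ∃ N₀ : ℕ, ∀ N : ℕ, N₀ ≤ N → ∀ n : ℕ, n ≤ N →
    |∑ h ∈ (Icc 1 N).filter (fun h => h ≡ b [MOD d]), ArithmeticFunction.vonMangoldt (n + h) -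
      (if (n + b).Coprime d then (N : ℝ) / (Nat.totient d : ℝ) else 0)| ≤ ε * N := by
  obtain ⟨N₁, h1⟩ := lam_ap 1 1
  obtain ⟨N₂, h2⟩ := ev_L' (d + 4 / ε)
  refine ⟨N₁ + N₂ + 1, fun N hN n hn => ?_⟩
  have hN0 : (0 : ℝ) < N := by exact_mod_cast (by omega : 0 < N)
  have hL := h2 (2 * N) (by omega)
  have h4 : 0 < 4 / ε := by positivity
  have hd0 : (0 : ℝ) ≤ d := Nat.cast_nonneg _
  have hL0 : 0 < Real.log ((2 * N : ℕ) : ℝ) := by linarith
  have key : ∀ y : ℕ, y ≤ 2 * N → |∑ m ∈ (Icc 1 y).filter (fun m => m ≡ n + b [MOD d]), ArithmeticFunction.vonMangoldt m -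
      (if (n + b).Coprime d then (y : ℝ) / (Nat.totient d : ℝ) else 0)| ≤ ε / 2 * N := by
    intro y hy
    refine (h1 (2 * N) (by omega) d hd (by rw [pow_one]; linarith) (n + b) y hy).trans ?_
    rw [pow_one, div_le_iff₀ hL0]
    have e1 : 4 / ε ≤ Real.log ((2 * N : ℕ) : ℝ) := by linarith
    rw [div_le_iff₀ hε] at e1
    push_cast at e1 ⊢
    nlinarith
  have e1 : ∑ h ∈ (Icc 1 N).filter (fun h => h ≡ b [MOD d]), ArithmeticFunction.vonMangoldt (n + h) =
      ∑ m ∈ (Icc 1 (n + N)).filter (fun m => m ≡ n + b [MOD d]), ArithmeticFunction.vonMangoldt m -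
      ∑ m ∈ (Icc 1 n).filter (fun m => m ≡ n + b [MOD d]), ArithmeticFunction.vonMangoldt m := by
    have e2 : (Icc 1 (n + N)).filter (fun m => m ≡ n + b [MOD d]) = (Icc 1 n).filter (fun m => m ≡ n + b [MOD d]) ∪
        ((Icc 1 N).filter (fun h => h ≡ b [MOD d])).image (fun h => n + h) := by
      ext m
      rw [mem_union, mem_filter, mem_filter, mem_image]
      constructor
      · rintro ⟨hm1, hm2⟩
        rw [mem_Icc] at hm1
        by_cases hmn : m ≤ n
        · exact Or.inl ⟨mem_Icc.2 ⟨hm1.1, hmn⟩, hm2⟩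
        · right
          refine ⟨m - n, ?_, by omega⟩
          rw [mem_filter, mem_Icc]
          refine ⟨by omega, ?_⟩
          have e3 : n + (m - n) ≡ n + b [MOD d] := by rwa [show n + (m - n) = m by omega]
          exact Nat.ModEq.add_left_cancel' n e3
      · rintro (⟨hm1, hm2⟩ | ⟨h, hh, rfl⟩)
        · rw [mem_Icc] at hm1
          exact ⟨mem_Icc.2 ⟨hm1.1, by omega⟩, hm2⟩
        · rw [mem_filter, mem_Icc] at hh
          exact ⟨mem_Icc.2 ⟨by omega, by omega⟩, Nat.ModEq.add_left n hh.2⟩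
    rw [e2, sum_union, sum_image (fun h _ h' _ hh => by simpa using hh)]
    · ring
    · rw [disjoint_left]
      intro m hm hm'
      rw [mem_filter, mem_Icc] at hm
      rw [mem_image] at hm'
      obtain ⟨h, hh, rfl⟩ := hm'
      rw [mem_filter, mem_Icc] at hh
      omega
  rw [e1]
  have k1 := key (n + N) (by omega)
  have k2 := key n (by omega)
  have e3 : (if (n + b).Coprime d then (N : ℝ) / (Nat.totient d : ℝ) else 0) =
      (if (n + b).Coprime d then ((n + N : ℕ) : ℝ) / (Nat.totient d : ℝ) else 0) -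
      (if (n + b).Coprime d then (n : ℝ) / (Nat.totient d : ℝ) else 0) := by
    split_ifs
    · push_cast; ring
    · ring
  rw [e3]
  rw [abs_le] at k1 k2 ⊢
  constructor <;> linarith [k1.1, k1.2, k2.1, k2.2]

open Classical in
/-- from one moving shift to the weights `1_{(n + b, d) = 1}` -/
theorem conv1 (Γ : ℕ → Set (ℕ → ℂ)) (hΓ : ∀ N, ∀ g ∈ Γ N, ∀ n, ‖g n‖ ≤ 1)
    (h : ∀ ε : ℝ, 0 < ε → ∃ N₀ : ℕ, ∀ N : ℕ, N₀ ≤ N → ∀ g ∈ Γ N,
      (((Icc 1 N).filter (fun h : ℕ => ∃ X : ℕ, X ≤ N ∧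
        ε * N < ‖∑ n ∈ Icc 1 X, g n * ((ArithmeticFunction.vonMangoldt (n + h) : ℝ) : ℂ)‖)).card : ℝ) ≤ ε * N)
    (d : ℕ) (hd : 1 ≤ d) (b : ℕ) (ε : ℝ) (hε : 0 < ε) : ∃ N₀ : ℕ, ∀ N : ℕ, N₀ ≤ N → ∀ g ∈ Γ N, ∀ X : ℕ, X ≤ N →
      ‖∑ n ∈ Icc 1 X, (if (n + b).Coprime d then g n else 0)‖ ≤ ε * N := by
  obtain ⟨φ, hφ⟩ : ∃ φ : ℝ, φ = (Nat.totient d : ℝ) := ⟨_, rfl⟩
  have hφ0 : 0 < φ := by rw [hφ]; exact_mod_cast Nat.totient_pos.2 hd
  obtain ⟨δ, hδ⟩ : ∃ δ : ℝ, δ = ε / (14 * φ) := ⟨_, rfl⟩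
  have hδ0 : 0 < δ := by rw [hδ]; positivity
  obtain ⟨N₁, h1⟩ := h δ hδ0
  obtain ⟨N₂, h2⟩ := shifts_ap d hd b δ hδ0
  refine ⟨N₁ + N₂ + 1, fun N hN g hNS X hX => ?_⟩
  have hg := hΓ N g hNS
  have hN0 : (0 : ℝ) < N := by exact_mod_cast (by omega : 0 < N)
  have hbad := h1 N (by omega) g hNS
  obtain ⟨Hb, hHb⟩ : ∃ Hb : Finset ℕ, Hb = (Icc 1 N).filter (fun h => h ≡ b [MOD d]) := ⟨_, rfl⟩
  -- the double sum
  have hdouble : ‖∑ n ∈ Icc 1 X, g n * ((∑ h ∈ Hb, ArithmeticFunction.vonMangoldt (n + h) : ℝ) : ℂ)‖ ≤ 13 * δ * N * N := by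
    have e1 : ∑ n ∈ Icc 1 X, g n * ((∑ h ∈ Hb, ArithmeticFunction.vonMangoldt (n + h) : ℝ) : ℂ) =
        ∑ h ∈ Hb, ∑ n ∈ Icc 1 X, g n * ((ArithmeticFunction.vonMangoldt (n + h) : ℝ) : ℂ) := by
      rw [sum_comm]
      apply sum_congr rfl
      intro n _
      push_cast
      rw [mul_sum]
    rw [e1]
    refine (norm_sum_le _ _).trans ?_
    have e2 : ∀ h ∈ Icc 1 N, ‖∑ n ∈ Icc 1 X, g n * ((ArithmeticFunction.vonMangoldt (n + h) : ℝ) : ℂ)‖ ≤ δ * N +
        (if h ∈ (Icc 1 N).filter (fun h : ℕ => ∃ X : ℕ, X ≤ N ∧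
        δ * N < ‖∑ n ∈ Icc 1 X, g n * ((ArithmeticFunction.vonMangoldt (n + h) : ℝ) : ℂ)‖) then 12 * (N : ℝ) else 0) := by
      intro h hh
      split_ifs with hif
      · have e3 : ‖∑ n ∈ Icc 1 X, g n * ((ArithmeticFunction.vonMangoldt (n + h) : ℝ) : ℂ)‖ ≤ 12 * N := by
          refine (norm_sum_le _ _).trans ?_
          have e4 : ∀ n ∈ Icc 1 X, ‖g n * ((ArithmeticFunction.vonMangoldt (n + h) : ℝ) : ℂ)‖ ≤ ArithmeticFunction.vonMangoldt (n + h) := by
            intro n _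
            rw [norm_mul, Complex.norm_real, Real.norm_of_nonneg ArithmeticFunction.vonMangoldt_nonneg]
            exact mul_le_of_le_one_left ArithmeticFunction.vonMangoldt_nonneg (hg n)
          refine (sum_le_sum e4).trans ?_
          have e5 : ∑ n ∈ Icc 1 X, ArithmeticFunction.vonMangoldt (n + h) ≤ lam1 (2 * N) := by
            have e6 : ∑ n ∈ Icc 1 X, ArithmeticFunction.vonMangoldt (n + h) = ∑ m ∈ (Icc 1 X).image (fun n => n + h), ArithmeticFunction.vonMangoldt m := by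
              rw [sum_image (fun n _ n' _ hh => by simpa using hh)]
            rw [e6]
            unfold lam1
            apply sum_le_sum_of_subset_of_nonneg
            · intro m hm
              rw [mem_image] at hm
              obtain ⟨n, hn, rfl⟩ := hm
              rw [mem_Icc] at hn hh ⊢
              omega
            · intro _ _ _
              exact ArithmeticFunction.vonMangoldt_nonneg
          refine e5.trans ((lam1_le _).trans (le_of_eq ?_))
          push_cast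
          ring
        have : 0 ≤ δ * N := by positivity
        linarith
      · rw [add_zero]
        by_contra hcon
        apply hif
        rw [mem_filter]
        exact ⟨hh, X, hX, not_le.1 hcon⟩
    have e3 : ∑ h ∈ Hb, ‖∑ n ∈ Icc 1 X, g n * ((ArithmeticFunction.vonMangoldt (n + h) : ℝ) : ℂ)‖ ≤
        ∑ h ∈ Icc 1 N, ‖∑ n ∈ Icc 1 X, g n * ((ArithmeticFunction.vonMangoldt (n + h) : ℝ) : ℂ)‖ := by
      rw [hHb]
      exact sum_le_sum_of_subset_of_nonneg (filter_subset _ _) (fun _ _ _ => norm_nonneg _)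
    refine e3.trans ((sum_le_sum e2).trans ?_)
    rw [sum_add_distrib, sum_const, Nat.card_Icc, nsmul_eq_mul, Nat.add_sub_cancel, sum_ite_mem, sum_const, nsmul_eq_mul]
    have e4 : (((Icc 1 N ∩ (Icc 1 N).filter (fun h : ℕ => ∃ X : ℕ, X ≤ N ∧
        δ * N < ‖∑ n ∈ Icc 1 X, g n * ((ArithmeticFunction.vonMangoldt (n + h) : ℝ) : ℂ)‖)).card : ℕ) : ℝ) ≤ δ * N :=
      (Nat.cast_le.2 (card_le_card inter_subset_right)).trans hbad
    have e5 := mul_le_mul_of_nonneg_right e4 (show (0 : ℝ) ≤ 12 * N by positivity)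
    calc _ ≤ N * (δ * N) + δ * N * (12 * N) := by linarith
      _ = _ := by ring
  -- the error
  have herr : ‖∑ n ∈ Icc 1 X, g n * ((∑ h ∈ Hb, ArithmeticFunction.vonMangoldt (n + h) -
      (if (n + b).Coprime d then (N : ℝ) / φ else 0) : ℝ) : ℂ)‖ ≤ δ * N * N := by
    refine (norm_sum_le _ _).trans ?_
    have e1 : ∀ n ∈ Icc 1 X, ‖g n * ((∑ h ∈ Hb, ArithmeticFunction.vonMangoldt (n + h) -
      (if (n + b).Coprime d then (N : ℝ) / φ else 0) : ℝ) : ℂ)‖ ≤ δ * N := by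
      intro n hn
      rw [mem_Icc] at hn
      rw [norm_mul, Complex.norm_real, Real.norm_eq_abs]
      have e2 := h2 N (by omega) n (by omega)
      rw [← hφ, ← hHb] at e2
      exact (mul_le_of_le_one_left (abs_nonneg _) (hg n)).trans e2
    refine (sum_le_sum e1).trans ?_
    rw [sum_const, Nat.card_Icc, nsmul_eq_mul, Nat.add_sub_cancel, mul_comm]
    apply mul_le_mul_of_nonneg_left _ (by positivity)
    exact_mod_cast hX
  have e1 : ((N : ℝ) / φ : ℂ) * ∑ n ∈ Icc 1 X, (if (n + b).Coprime d then g n else 0) =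
      ∑ n ∈ Icc 1 X, g n * ((∑ h ∈ Hb, ArithmeticFunction.vonMangoldt (n + h) : ℝ) : ℂ) -
      ∑ n ∈ Icc 1 X, g n * ((∑ h ∈ Hb, ArithmeticFunction.vonMangoldt (n + h) -
        (if (n + b).Coprime d then (N : ℝ) / φ else 0) : ℝ) : ℂ) := by
    rw [← sum_sub_distrib, mul_sum]
    apply sum_congr rfl
    intro n _
    split_ifs
    · push_cast; ring
    · push_cast; ring
  have e2 : ‖((N : ℝ) / φ : ℂ) * ∑ n ∈ Icc 1 X, (if (n + b).Coprime d then g n else 0)‖ ≤ 14 * δ * N * N := by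
    rw [e1]
    refine (norm_sub_le _ _).trans ?_
    linarith
  have e3 : ‖((N : ℝ) / φ : ℂ)‖ = N / φ := by
    rw [← Complex.ofReal_div, Complex.norm_real, Real.norm_of_nonneg (by positivity)]
  rw [norm_mul, e3] at e2
  have e4 : ‖∑ n ∈ Icc 1 X, (if (n + b).Coprime d then g n else 0)‖ ≤ 14 * δ * N * N / (N / φ) := by
    rw [le_div_iff₀ (by positivity)]
    linarith
  refine e4.trans (le_of_eq ?_)
  rw [hδ]
  field_simp

/-- inclusion and exclusion -/
lemma incl_excl (q m : ℕ) (hq : Squarefree q) : (if q ∣ m then (1 : ℂ) else 0) =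
    ∑ t ∈ q.primeFactors.powerset, (-1) ^ t.card * (if m.Coprime (∏ p ∈ t, p) then (1 : ℂ) else 0) := by
  have hq0 : q ≠ 0 := hq.ne_zero
  have h1 : (if q ∣ m then (1 : ℂ) else 0) = ∏ p ∈ q.primeFactors, (-(if p ∣ m then (0 : ℂ) else 1) + 1) := by
    by_cases hqm : q ∣ m
    · rw [if_pos hqm, eq_comm]
      apply prod_eq_one
      intro p hp
      rw [if_pos ((Nat.dvd_of_mem_primeFactors hp).trans hqm)]
      ring
    · rw [if_neg hqm, eq_comm]
      have h2 : ∃ p ∈ q.primeFactors, ¬ p ∣ m := by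
        by_contra h
        push Not at h
        apply hqm
        rw [← Nat.prod_primeFactors_of_squarefree hq]
        exact (prod_dvd_iff _ (fun p hp => Nat.prime_of_mem_primeFactors hp) m).1 h
      obtain ⟨p, hp, hpm⟩ := h2
      apply prod_eq_zero hp
      rw [if_neg hpm]
      ring
  rw [h1, prod_add]
  apply sum_congr rfl
  intro t ht
  rw [mem_powerset] at ht
  rw [prod_const_one, mul_one]
  have h2 : ∏ p ∈ t, -(if p ∣ m then (0 : ℂ) else 1) = (-1) ^ t.card * ∏ p ∈ t, (if p ∣ m then (0 : ℂ) else 1) := by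
    rw [← prod_const, ← prod_mul_distrib]
    apply prod_congr rfl
    intro p _
    ring
  rw [h2]
  congr 1
  by_cases hc : m.Coprime (∏ p ∈ t, p)
  · rw [if_pos hc]
    apply prod_eq_one
    intro p hp
    rw [if_neg]
    intro hpm
    have h3 := (Nat.prime_of_mem_primeFactors (ht hp)).one_lt
    have h4 : p ∣ 1 := by
      rw [← Nat.Coprime.gcd_eq_one hc]
      exact Nat.dvd_gcd hpm (dvd_prod_of_mem (fun p => p) hp)
    have := Nat.le_of_dvd one_pos h4
    omega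
  · rw [if_neg hc]
    rw [Nat.coprime_prod_right_iff] at hc
    push Not at hc
    obtain ⟨p, hp, hpm⟩ := hc
    apply prod_eq_zero hp
    rw [if_pos]
    by_contra h
    exact hpm (((Nat.Prime.coprime_iff_not_dvd (Nat.prime_of_mem_primeFactors (ht hp))).2 h).symm)

open Classical in
/-- **from one moving shift to the residue classes** -/
theorem crit2 (Γ : ℕ → Set (ℕ → ℂ)) (hΓ : ∀ N, ∀ g ∈ Γ N, ∀ n, ‖g n‖ ≤ 1)
    (h : ∀ ε : ℝ, 0 < ε → ∃ N₀ : ℕ, ∀ N : ℕ, N₀ ≤ N → ∀ g ∈ Γ N,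
      (((Icc 1 N).filter (fun h : ℕ => ∃ X : ℕ, X ≤ N ∧
        ε * N < ‖∑ n ∈ Icc 1 X, g n * ((ArithmeticFunction.vonMangoldt (n + h) : ℝ) : ℂ)‖)).card : ℝ) ≤ ε * N)
    (q : ℕ) (hq : Squarefree q) (a : ℕ) (ε : ℝ) (hε : 0 < ε) : ∃ N₀ : ℕ, ∀ N : ℕ, N₀ ≤ N → ∀ g ∈ Γ N, ∀ X : ℕ, X ≤ N →
      ‖∑ n ∈ (Icc 1 X).filter (fun n => n % q = a), g n‖ ≤ ε * N := by
  have hq0 : 0 < q := Nat.pos_of_ne_zero hq.ne_zero
  by_cases haq : a < q
  swap
  · refine ⟨0, fun N _ g _ X _ => ?_⟩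
    have : (Icc 1 X).filter (fun n => n % q = a) = ∅ := by
      rw [filter_eq_empty_iff]
      intro n _ hn
      have := Nat.mod_lt n hq0
      omega
    rw [this, sum_empty, norm_zero]
    positivity
  obtain ⟨T, hT⟩ : ∃ T : Finset (Finset ℕ), T = q.primeFactors.powerset := ⟨_, rfl⟩
  have hT0 : (0 : ℝ) < T.card := by
    rw [hT]
    exact_mod_cast card_pos.2 ⟨∅, empty_mem_powerset _⟩
  have hpos : ∀ t ∈ T, 1 ≤ ∏ p ∈ t, p := by
    intro t ht
    rw [hT, mem_powerset] at ht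
    exact prod_pos fun p hp => (Nat.prime_of_mem_primeFactors (ht hp)).pos
  have h1 : ∀ t : Finset ℕ, ∃ N₀ : ℕ, t ∈ T → ∀ N : ℕ, N₀ ≤ N → ∀ g ∈ Γ N, ∀ X : ℕ, X ≤ N →
      ‖∑ n ∈ Icc 1 X, (if (n + (q - a)).Coprime (∏ p ∈ t, p) then g n else 0)‖ ≤ ε / T.card * N := by
    intro t
    by_cases ht : t ∈ T
    · obtain ⟨N₀, h2⟩ := conv1 Γ hΓ h (∏ p ∈ t, p) (hpos t ht) (q - a) (ε / T.card) (by positivity)
      exact ⟨N₀, fun _ => h2⟩
    · exact ⟨0, fun h => absurd h ht⟩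
  choose M hM using h1
  refine ⟨T.sup M, fun N hN g hNS X hX => ?_⟩
  have h2 : ∑ n ∈ (Icc 1 X).filter (fun n => n % q = a), g n =
      ∑ t ∈ T, (-1) ^ t.card * ∑ n ∈ Icc 1 X, (if (n + (q - a)).Coprime (∏ p ∈ t, p) then g n else 0) := by
    rw [sum_filter]
    have e1 : ∀ n, (if n % q = a then g n else 0) = g n * (if q ∣ n + (q - a) then (1 : ℂ) else 0) := by
      intro n
      have e2 : n % q = a ↔ q ∣ n + (q - a) := by
        constructor
        · intro hn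
          rw [Nat.dvd_iff_mod_eq_zero, Nat.add_mod, hn]
          rcases Nat.eq_zero_or_pos a with h0 | h0
          · rw [h0]; simp
          · rw [Nat.mod_eq_of_lt (show q - a < q by omega), show a + (q - a) = q by omega, Nat.mod_self]
        · intro hn
          have e3 : n + (q - a) ≡ a + (q - a) [MOD q] := by
            rw [show a + (q - a) = q by omega]
            exact ((Nat.modEq_zero_iff_dvd.2 hn).trans (Nat.modEq_zero_iff_dvd.2 dvd_rfl).symm)
          have e4 := Nat.ModEq.add_right_cancel' (q - a) e3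
          unfold Nat.ModEq at e4
          rw [e4, Nat.mod_eq_of_lt haq]
      simp only [e2]
      split_ifs <;> ring
    simp only [e1, incl_excl q _ hq, ← hT]
    simp only [mul_sum]
    rw [sum_comm]
    apply sum_congr rfl
    intro t _
    apply sum_congr rfl
    intro n _
    split_ifs <;> ring
  rw [h2]
  refine (norm_sum_le _ _).trans ?_
  have h3 : ∀ t ∈ T, ‖(-1 : ℂ) ^ t.card * ∑ n ∈ Icc 1 X, (if (n + (q - a)).Coprime (∏ p ∈ t, p) then g n else 0)‖ ≤ ε / T.card * N := by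
    intro t ht
    rw [norm_mul, norm_pow, norm_neg, norm_one, one_pow, one_mul]
    exact hM t ht N ((le_sup (f := M) ht).trans hN) g hNS X hX
  refine (sum_le_sum h3).trans (le_of_eq ?_)
  rw [sum_const, nsmul_eq_mul]
  field_simp

end Pool.Agent.E8helper80.FL
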