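import Pool.Agent.E8helper80.FL.Seg

set_option autoImplicit false

/-! The criterion: from residue classes to moving shifts of the von Mangoldt function. -/

namespace Pool.Agent.E8helper80.FL
open Finset
open Pool.Agent.H807R2.Dav
open Pool.Agent.H373R2.T7

/-- the twisted sum -/
noncomputable def tw {k : ℕ} (g : ℕ → ℂ) (s : Fin k → ℕ → ℕ) (m : Fin k → ℕ) (X : ℕ) : ℂ :=
  ∑ n ∈ Icc 1 X, g n * ((∏ i, ArithmeticFunction.vonMangoldt (n + s i (m i)) : ℝ) : ℂ)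

/-- the twisted sum of the model -/
noncomputable def twz {k : ℕ} (z : ℕ) (g : ℕ → ℂ) (s : Fin k → ℕ → ℕ) (m : Fin k → ℕ) (X : ℕ) : ℂ :=
  ∑ n ∈ Icc 1 X, g n * ((∏ i, lamz z (n + s i (m i)) : ℝ) : ℂ)

lemma fI_nat (f : ℕ → ℝ) (n h : ℕ) (hn : 1 ≤ n) : fI f ((n : ℤ) + (h : ℤ)) = f (n + h) := by
  unfold fI
  rw [if_pos (by omega)]
  congr 1

open Classical in
/-- **almost all shifts**: a fixed model -/
theorem red (k p B : ℕ) (C : ℝ) (hC : 0 ≤ C) (ε : ℝ) (hε : 0 < ε) : ∃ z₁ : ℕ, ∀ z : ℕ, z₁ ≤ z → ∃ N₀ : ℕ, ∀ N : ℕ, N₀ ≤ N →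
    ∀ (x : Fin k → ℕ) (s : Fin k → ℕ → ℕ), (∀ i, Fam p B C N (x i) (fun m => (s i m : ℤ))) →
    ∀ g : ℕ → ℂ, (∀ n, ‖g n‖ ≤ 1) →
    (((Fintype.piFinset (fun i => Icc 1 (x i))).filter (fun m : Fin k → ℕ => ∃ X : ℕ, X ≤ N ∧
      ε * N < ‖tw g s m X - twz z g s m X‖)).card : ℝ) ≤ ε * ∏ i, (x i : ℝ) := by
  obtain ⟨z₁, h1⟩ := seg k p B C hC (ε / 2) (by positivity)
  refine ⟨z₁, fun z hz => ?_⟩
  obtain ⟨N₀, h2⟩ := h1 z hz
  refine ⟨N₀, fun N hN x s hF g hg => ?_⟩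
  have hre := h2 N hN x (fun i m => (s i m : ℤ)) hF (fun n => (g n).re) (fun n _ => (Complex.abs_re_le_norm _).trans (hg n))
  have him := h2 N hN x (fun i m => (s i m : ℤ)) hF (fun n => (g n).im) (fun n _ => (Complex.abs_im_le_norm _).trans (hg n))
  have hD : ∀ (m : Fin k → ℕ) (X : ℕ), tw g s m X - twz z g s m X =
      ((Df z (fun i m => (s i m : ℤ)) (fun n => (g n).re) m X : ℝ) : ℂ) +
      ((Df z (fun i m => (s i m : ℤ)) (fun n => (g n).im) m X : ℝ) : ℂ) * Complex.I := by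
    intro m X
    unfold tw twz Df
    push_cast
    rw [sum_mul, ← sum_sub_distrib, ← sum_add_distrib]
    apply sum_congr rfl
    intro n hn
    rw [mem_Icc] at hn
    have e1 : ∀ (f : ℕ → ℝ) (i : Fin k), fI f ((n : ℤ) + ((s i (m i) : ℕ) : ℤ)) = f (n + s i (m i)) := fun f i => fI_nat f n _ hn.1
    simp only [e1]
    have e2 : ∀ a b : ℂ, g n * a - g n * b = ((g n).re : ℂ) * (a - b) + ((g n).im : ℂ) * (a - b) * Complex.I := by
      intro a b
      have h3 := Complex.re_add_im (g n)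
      linear_combination -(a - b) * h3
    exact e2 _ _
  have hsub : (Fintype.piFinset (fun i => Icc 1 (x i))).filter (fun m : Fin k → ℕ => ∃ X : ℕ, X ≤ N ∧
      ε * N < ‖tw g s m X - twz z g s m X‖) ⊆
      (Fintype.piFinset (fun i => Icc 1 (x i))).filter (fun m : Fin k → ℕ => ∃ X : ℕ, X ≤ N ∧
        ε / 2 * N < |Df z (fun i m => (s i m : ℤ)) (fun n => (g n).re) m X|) ∪
      (Fintype.piFinset (fun i => Icc 1 (x i))).filter (fun m : Fin k → ℕ => ∃ X : ℕ, X ≤ N ∧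
        ε / 2 * N < |Df z (fun i m => (s i m : ℤ)) (fun n => (g n).im) m X|) := by
    intro m hm
    rw [mem_filter] at hm
    obtain ⟨hm1, X, hX, hlt⟩ := hm
    rw [hD] at hlt
    rw [mem_union, mem_filter, mem_filter]
    by_contra hcon
    rw [not_or] at hcon
    obtain ⟨c1, c2⟩ := hcon
    have d1 : |Df z (fun i m => (s i m : ℤ)) (fun n => (g n).re) m X| ≤ ε / 2 * N := by
      by_contra h
      exact c1 ⟨hm1, X, hX, not_le.1 h⟩
    have d2 : |Df z (fun i m => (s i m : ℤ)) (fun n => (g n).im) m X| ≤ ε / 2 * N := by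
      by_contra h
      exact c2 ⟨hm1, X, hX, not_le.1 h⟩
    have d3 := norm_add_le ((Df z (fun i m => (s i m : ℤ)) (fun n => (g n).re) m X : ℝ) : ℂ)
      (((Df z (fun i m => (s i m : ℤ)) (fun n => (g n).im) m X : ℝ) : ℂ) * Complex.I)
    rw [norm_mul, Complex.norm_I, mul_one, Complex.norm_real, Complex.norm_real, Real.norm_eq_abs, Real.norm_eq_abs] at d3
    linarith
  refine (Nat.cast_le.2 (card_le_card hsub)).trans ?_
  refine (Nat.cast_le.2 (card_union_le _ _)).trans ?_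
  rw [Nat.cast_add]
  exact (add_le_add hre him).trans (by linarith)

/-- the product of the primes up to `z` -/
def Pz (z : ℕ) : ℕ := ∏ p ∈ pz z, p

lemma Pz_pos (z : ℕ) : 0 < Pz z := prod_pos fun _ hp => (mem_pz.1 hp).2.pos

lemma dvd_Pz {z p : ℕ} (hp : p ∈ pz z) : p ∣ Pz z := dvd_prod_of_mem (fun p => p) hp

lemma Pz_squarefree (z : ℕ) : Squarefree (Pz z) := by
  unfold Pz
  apply Finset.squarefree_prod_of_pairwise_isCoprime
  · intro p hp q hq hpq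
    exact Nat.coprime_iff_isRelPrime.1 ((Nat.coprime_primes (mem_pz.1 hp).2 (mem_pz.1 hq).2).2 hpq)
  · intro p hp
    exact (mem_pz.1 hp).2.prime.squarefree

lemma lamz_per (z n h : ℕ) : lamz z (n % Pz z + h) = lamz z (n + h) := by
  unfold lamz
  have e : (∀ p ∈ pz z, ¬ p ∣ n % Pz z + h) ↔ (∀ p ∈ pz z, ¬ p ∣ n + h) := by
    apply forall₂_congr
    intro p hp
    have h1 : n % Pz z + h ≡ n + h [MOD p] := Nat.ModEq.add_right _ ((Nat.mod_modEq n (Pz z)).of_dvd (dvd_Pz hp))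
    exact not_congr (Nat.ModEq.dvd_iff h1 dvd_rfl)
  simp only [e]

/-- the sum of the model from the sums over the residue classes -/
lemma twz_le {k : ℕ} (z : ℕ) (g : ℕ → ℂ) (s : Fin k → ℕ → ℕ) (m : Fin k → ℕ) (X : ℕ) (δ : ℝ)
    (h : ∀ a, a < Pz z → ‖∑ n ∈ (Icc 1 X).filter (fun n => n % Pz z = a), g n‖ ≤ δ) :
    ‖twz z g s m X‖ ≤ Pz z * (((Vz z)⁻¹) ^ k * δ) := by
  unfold twz
  rw [← sum_fiberwise_of_maps_to (s := Icc 1 X) (t := range (Pz z))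
    (g := fun n => n % Pz z) (fun n _ => mem_range.2 (Nat.mod_lt _ (Pz_pos z)))]
  refine (norm_sum_le _ _).trans ?_
  have h1 : ∀ a ∈ range (Pz z), ‖∑ n ∈ (Icc 1 X).filter (fun n => n % Pz z = a), g n * ((∏ i, lamz z (n + s i (m i)) : ℝ) : ℂ)‖ ≤
      ((Vz z)⁻¹) ^ k * δ := by
    intro a ha
    have h2 : ∑ n ∈ (Icc 1 X).filter (fun n => n % Pz z = a), g n * ((∏ i, lamz z (n + s i (m i)) : ℝ) : ℂ) =
        (∑ n ∈ (Icc 1 X).filter (fun n => n % Pz z = a), g n) * ((∏ i, lamz z (a + s i (m i)) : ℝ) : ℂ) := by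
      rw [sum_mul]
      apply sum_congr rfl
      intro n hn
      rw [mem_filter] at hn
      congr 2
      apply prod_congr rfl
      intro i _
      rw [← lamz_per z n, hn.2]
    rw [h2, norm_mul, mul_comm]
    have h3 : ‖((∏ i, lamz z (a + s i (m i)) : ℝ) : ℂ)‖ ≤ ((Vz z)⁻¹) ^ k := by
      rw [Complex.norm_real, Real.norm_of_nonneg (prod_nonneg fun i _ => lamz_nonneg _ _)]
      calc ∏ i, lamz z (a + s i (m i)) ≤ ∏ _i : Fin k, (Vz z)⁻¹ :=
            prod_le_prod (fun i _ => lamz_nonneg _ _) (fun i _ => lamz_le_inv z _)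
        _ = _ := by rw [prod_const, card_univ, Fintype.card_fin]
    exact mul_le_mul h3 (h a (mem_range.1 ha)) (norm_nonneg _) (pow_nonneg (inv_pos.2 (Vz_pos z)).le _)
  refine (sum_le_sum h1).trans ?_
  rw [sum_const, card_range, nsmul_eq_mul]

open Classical in
/-- **from residue classes to moving shifts** -/
theorem crit1 (g : ℕ → ℂ) (hg : ∀ n, ‖g n‖ ≤ 1) (S : Set ℕ)
    (h : ∀ q : ℕ, Squarefree q → ∀ a : ℕ, ∀ ε : ℝ, 0 < ε → ∃ N₀ : ℕ, ∀ N : ℕ, N₀ ≤ N → N ∈ S → ∀ X : ℕ, X ≤ N →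
      ‖∑ n ∈ (Icc 1 X).filter (fun n => n % q = a), g n‖ ≤ ε * N)
    (k p B : ℕ) (C : ℝ) (hC : 0 ≤ C) (ε : ℝ) (hε : 0 < ε) : ∃ N₀ : ℕ, ∀ N : ℕ, N₀ ≤ N → N ∈ S →
    ∀ (x : Fin k → ℕ) (s : Fin k → ℕ → ℕ), (∀ i, Fam p B C N (x i) (fun m => (s i m : ℤ))) →
    (((Fintype.piFinset (fun i => Icc 1 (x i))).filter (fun m : Fin k → ℕ => ∃ X : ℕ, X ≤ N ∧
      ε * N < ‖tw g s m X‖)).card : ℝ) ≤ ε * ∏ i, (x i : ℝ) := by
  obtain ⟨z, hz⟩ := red k p B C hC (ε / 2) (by positivity)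
  obtain ⟨N₀, h1⟩ := hz z le_rfl
  obtain ⟨W, hW⟩ : ∃ W : ℝ, W = Pz z * ((Vz z)⁻¹) ^ k := ⟨_, rfl⟩
  have hP0 : (0 : ℝ) < Pz z := by exact_mod_cast Pz_pos z
  have hV0 : 0 < ((Vz z)⁻¹) ^ k := pow_pos (inv_pos.2 (Vz_pos z)) _
  have hW0 : 0 < W := by rw [hW]; positivity
  choose M hM using fun a => h (Pz z) (Pz_squarefree z) a (ε / 2 / W) (by positivity)
  refine ⟨N₀ + (range (Pz z)).sup M, fun N hN hNS x s hF => ?_⟩
  have hmodel : ∀ (m : Fin k → ℕ) (X : ℕ), X ≤ N → ‖twz z g s m X‖ ≤ ε / 2 * N := by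
    intro m X hX
    refine (twz_le z g s m X (ε / 2 / W * N) (fun a ha => hM a N ?_ hNS X hX)).trans (le_of_eq ?_)
    · have := le_sup (f := M) (mem_range.2 ha)
      omega
    · calc (Pz z : ℝ) * (((Vz z)⁻¹) ^ k * (ε / 2 / W * N)) = (Pz z * ((Vz z)⁻¹) ^ k) / W * (ε / 2 * N) := by ring
        _ = ε / 2 * N := by rw [← hW, div_self hW0.ne', one_mul]
  refine le_trans ?_ ((h1 N (by omega) x s hF g hg).trans ?_)
  · apply Nat.cast_le.2
    apply card_le_card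
    intro m hm
    rw [mem_filter] at hm ⊢
    obtain ⟨hm1, X, hX, hlt⟩ := hm
    refine ⟨hm1, X, hX, ?_⟩
    have h2 := hmodel m X hX
    have h3 : tw g s m X = (tw g s m X - twz z g s m X) + twz z g s m X := by ring
    have h4 := norm_add_le (tw g s m X - twz z g s m X) (twz z g s m X)
    rw [← h3] at h4
    linarith
  · apply mul_le_mul_of_nonneg_right (by linarith) (prod_nonneg fun _ _ => Nat.cast_nonneg _)

end Pool.Agent.E8helper80.FL
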