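import Pool.Agent.E8helper80.FL.Conv
import Pool.Agent.Y958.E.Res
import Pool.Agent.Y681.E.Apx2
import Pool.Agent.Y842.PH.A2

set_option autoImplicit false

/-! A uniform gap for any number of fixed shifts. -/

namespace Pool.Agent.E8helper80.FL
open Finset
open Pool.Agent.H373R2.T7
open Pool.Agent.Y958.U (LZ)
open Pool.Agent.Y958.E (BM)
open Pool.Agent.Y842.EL (LZ_mono LZ_union LZ_diag' LZ_empty)

/-- all the initial segments -/
lemma closure_LZ (T : ℕ → ℂ) (hT : ∀ X Y : ℕ, X ≤ Y → ‖T Y - T X‖ ≤ (Y : ℝ) - X) (hT0 : T 0 = 0) (c : ℝ) (hc0 : 0 ≤ c) (hc1 : c ≤ 1)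
    (hB : ∀ δ : ℝ, 0 < δ → LZ {Y : ℕ | (1 - c) * Y + δ * Y < ‖T Y‖}) (δ : ℝ) (hδ : 0 < δ) :
    LZ {N : ℕ | ∃ X : ℕ, X ≤ N ∧ (1 - c) * X + δ * N < ‖T X‖} := by
  obtain ⟨d, hd⟩ : ∃ d : ℝ, d = min δ 1 := ⟨_, rfl⟩
  have hd0 : 0 < d := by rw [hd]; exact lt_min hδ one_pos
  have hd1 : d ≤ 1 := by rw [hd]; exact min_le_right _ _
  have hdδ : d ≤ δ := by rw [hd]; exact min_le_left _ _
  refine LZ_mono ?_ (Pool.Agent.Y842.PH.LZ_thick {Y : ℕ | (1 - c) * Y + d / 4 * Y < ‖T Y‖} (hB (d / 4) (by positivity)) (d / 8)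
    (by positivity) (by linarith))
  rintro N ⟨X, hX, hlt⟩
  have hN0 : (0 : ℝ) ≤ N := Nat.cast_nonneg _
  have hX0 : (0 : ℝ) ≤ X := Nat.cast_nonneg _
  have hXN : (X : ℝ) ≤ N := by exact_mod_cast hX
  have h1 : ‖T X‖ ≤ X := by
    have := hT 0 X (Nat.zero_le _)
    rw [hT0, sub_zero, Nat.cast_zero, sub_zero] at this
    exact this
  have h2 : (1 - c) * X + d * N < ‖T X‖ := by
    have : d * N ≤ δ * N := mul_le_mul_of_nonneg_right hdδ hN0
    linarith
  refine ⟨X, ?_, hX, fun m hm1 hm2 => ?_⟩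
  · have : 0 ≤ (1 - c) * (X : ℝ) := mul_nonneg (by linarith) hX0
    have : d / 8 * N ≤ d * N := mul_le_mul_of_nonneg_right (by linarith) hN0
    linarith
  · have h3 := hT X m hm1
    have h4 : ‖T X‖ ≤ ‖T m‖ + ‖T m - T X‖ := by
      have := norm_sub_norm_le (T X) (T m)
      rw [norm_sub_rev (T X) (T m)] at this
      linarith
    show (1 - c) * (m : ℝ) + d / 4 * m < ‖T m‖
    have h5 : (1 - c) * (m : ℝ) ≤ (1 - c) * X + d / 8 * N := by
      have e1 : (1 - c) * (m : ℝ) ≤ (1 - c) * (X + d / 8 * N) := mul_le_mul_of_nonneg_left hm2 (by linarith)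
      have e2 : (1 - c) * (d / 8 * N) ≤ 1 * (d / 8 * (N : ℝ)) := mul_le_mul_of_nonneg_right (by linarith) (by positivity)
      linarith
    have h6 : d / 4 * (m : ℝ) ≤ d / 4 * (2 * N) := by
      apply mul_le_mul_of_nonneg_left _ (by positivity)
      have : d / 8 * N ≤ 1 * (N : ℝ) := mul_le_mul_of_nonneg_right (by linarith) hN0
      linarith
    have h7 : 0 ≤ d * (N : ℝ) := by positivity
    linarith

/-- the Liouville function with complex values -/
noncomputable def lioC (n : ℕ) : ℂ := (-1) ^ ArithmeticFunction.cardFactors n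

lemma lioC_norm (n : ℕ) : ‖lioC n‖ = 1 := by
  unfold lioC
  rw [norm_pow, norm_neg, norm_one, one_pow]

lemma pret_lio : Pool.Agent.Y958.E.Pret lioC := by
  refine ⟨1, 1, 0, le_rfl, ?_⟩
  have h1 : ∀ p : Nat.Primes, (1 - (lioC p * (starRingEnd ℂ) ((-1) ^ ArithmeticFunction.cardFactors (p : ℕ) *
    (1 : DirichletCharacter ℂ 1) ((p : ℕ) : ZMod 1) * Pool.Agent.Y958.E.nit 0 p)).re) / ((p : ℕ) : ℝ) = 0 := by
    intro p
    have e1 : (1 : DirichletCharacter ℂ 1) ((p : ℕ) : ZMod 1) = 1 := MulChar.one_apply (isUnit_of_subsingleton _)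
    have e2 : Pool.Agent.Y958.E.nit 0 p = 1 := by
      unfold Pool.Agent.Y958.E.nit
      simp
    have e3 : lioC p * (starRingEnd ℂ) ((-1) ^ ArithmeticFunction.cardFactors (p : ℕ)) = 1 := by
      unfold lioC
      rw [map_pow, map_neg, map_one, ← mul_pow, neg_mul_neg, one_mul, one_pow]
    rw [e1, e2, mul_one, mul_one, e3, Complex.one_re, sub_self, zero_div]
  simp only [h1]
  exact summable_zero

/-- the residue class -/
lemma res_class (q a X : ℕ) (hq : 1 ≤ q) (ha : a < q) (G : ℕ → ℂ) (hG : ∀ n, ‖G n‖ ≤ 1) :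
    ‖∑ n ∈ (Icc 1 X).filter (fun n => n % q = a), G n‖ ≤ 1 + ‖∑ m ∈ Icc 1 ((X - a) / q), G (q * m + a)‖ ∧
    (X - a) / q ≤ ((Icc 1 X).filter (fun n => n % q = a)).card := by
  have hsub : (Icc 1 ((X - a) / q)).image (fun m => q * m + a) ⊆ (Icc 1 X).filter (fun n => n % q = a) := by
    intro n hn
    rw [mem_image] at hn
    obtain ⟨m, hm, rfl⟩ := hn
    rw [mem_Icc] at hm
    have h1 : q * m ≤ X - a := by
      calc q * m ≤ q * ((X - a) / q) := Nat.mul_le_mul_left _ hm.2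
        _ ≤ X - a := Nat.mul_div_le _ _
    have h2 : 1 ≤ q * m := Nat.mul_pos hq hm.1
    rw [mem_filter, mem_Icc]
    refine ⟨by omega, ?_⟩
    rw [Nat.mul_add_mod, Nat.mod_eq_of_lt ha]
  have hinj : Set.InjOn (fun m => q * m + a) (Icc 1 ((X - a) / q) : Finset ℕ) := by
    intro m _ m' _ h
    simp only at h
    exact Nat.eq_of_mul_eq_mul_left hq (by omega)
  constructor
  · have h1 : ∑ m ∈ Icc 1 ((X - a) / q), G (q * m + a) = ∑ n ∈ (Icc 1 ((X - a) / q)).image (fun m => q * m + a), G n := by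
      rw [sum_image hinj]
    have h2 := sum_sdiff (f := G) hsub
    rw [← h2, ← h1]
    refine (norm_add_le _ _).trans (add_le_add ?_ le_rfl)
    have h3 : (Icc 1 X).filter (fun n => n % q = a) \ (Icc 1 ((X - a) / q)).image (fun m => q * m + a) ⊆ {a} := by
      intro n hn
      rw [mem_sdiff, mem_filter, mem_Icc, mem_image] at hn
      obtain ⟨⟨⟨hn1, hn2⟩, hn3⟩, hn4⟩ := hn
      rw [mem_singleton]
      by_contra hne
      apply hn4
      have h4 := Nat.div_add_mod n q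
      rw [hn3] at h4
      have h5 : 1 ≤ n / q := by
        by_contra h6
        have h7 : n / q = 0 := Nat.lt_one_iff.1 (not_le.1 h6)
        rw [h7, mul_zero] at h4
        omega
      refine ⟨n / q, ?_, h4⟩
      rw [mem_Icc]
      refine ⟨h5, ?_⟩
      rw [Nat.le_div_iff_mul_le hq, mul_comm]
      omega
    refine (norm_sum_le _ _).trans ?_
    refine (sum_le_sum_of_subset_of_nonneg h3 (fun _ _ _ => norm_nonneg _)).trans ?_
    rw [sum_singleton]
    exact hG a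
  · calc (X - a) / q = ((Icc 1 ((X - a) / q)).image (fun m => q * m + a)).card := by
          rw [card_image_of_injOn hinj, Nat.card_Icc, Nat.add_sub_cancel]
      _ ≤ _ := card_le_card hsub

/-- **a gap in all residue classes** -/
theorem gap_ap : ∃ c : ℕ → ℝ, (∀ l, 0 < c l ∧ c l ≤ 1) ∧ ∀ (l : ℕ) (g : Fin l → ℕ → ℂ), (∀ i, BM (g i)) → ∀ j, g j = lioC →
    ∃ E : Set ℕ, LZ E ∧ ∀ h : Fin l → ℕ, Function.Injective h → ∀ q : ℕ, 1 ≤ q → ∀ a : ℕ, a < q → ∀ δ : ℝ, 0 < δ →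
      ∃ N₀ : ℕ, ∀ N : ℕ, N₀ ≤ N → N ∉ E → ∀ X : ℕ, X ≤ N →
        ‖∑ n ∈ (Icc 1 X).filter (fun n => n % q = a), ∏ i, g i (n + h i)‖ ≤
          (1 - c l) * (((Icc 1 X).filter (fun n => n % q = a)).card : ℝ) + δ * N := by
  obtain ⟨c, hc0, hc⟩ := Pool.Agent.Y958.E.finE Pool.Agent.Y681.E.Apx2.apx2
  refine ⟨fun l => min (c l) 1, fun l => ⟨lt_min (hc0 l) one_pos, min_le_right _ _⟩, fun l g hg j hj => ?_⟩
  obtain ⟨κ, hκ⟩ : ∃ κ : ℝ, κ = min (c l) 1 := ⟨_, rfl⟩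
  have hκ0 : 0 < κ := by rw [hκ]; exact lt_min (hc0 l) one_pos
  have hκ1 : κ ≤ 1 := by rw [hκ]; exact min_le_right _ _
  have hκc : κ ≤ c l := by rw [hκ]; exact min_le_left _ _
  obtain ⟨E, hE, hE1⟩ := LZ_diag' (ι := (Fin l → ℕ) × ℕ × ℕ × ℕ)
    (fun t => {N : ℕ | (Function.Injective t.1 ∧ 1 ≤ t.2.1) ∧ ∃ Y : ℕ, Y ≤ N ∧ (1 - κ) * Y + 1 / ((t.2.2.2 : ℝ) + 1) * N <
      ‖∑ m ∈ Icc 1 Y, ∏ i, g i (t.2.1 * m + (t.2.2.1 + t.1 i))‖}) (by
    rintro ⟨h, q, a, r⟩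
    simp only
    by_cases hh : Function.Injective h ∧ 1 ≤ q
    swap
    · refine LZ_mono ?_ LZ_empty
      rintro N ⟨h1, _⟩
      exact (hh h1).elim
    obtain ⟨T, hT⟩ : ∃ T : ℕ → ℂ, T = fun Y => ∑ m ∈ Icc 1 Y, ∏ i, g i (q * m + (a + h i)) := ⟨_, rfl⟩
    have hGn : ∀ m, ‖∏ i, g i (q * m + (a + h i))‖ ≤ 1 := by
      intro m
      rw [norm_prod]
      exact prod_le_one (fun _ _ => norm_nonneg _) fun i _ => (hg i).1 _
    have h1 := closure_LZ T (fun X Y hXY => by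
        rw [hT]
        simp only
        have e1 : Icc 1 Y = Icc 1 X ∪ Ioc X Y := by
          ext n
          rw [mem_union, mem_Icc, mem_Icc, mem_Ioc]
          omega
        rw [e1, sum_union (by
          rw [disjoint_left]
          intro n hn hn'
          rw [mem_Icc] at hn
          rw [mem_Ioc] at hn'
          omega), add_sub_cancel_left]
        refine (norm_sum_le _ _).trans ((sum_le_sum fun m _ => hGn m).trans (le_of_eq ?_))
        rw [sum_const, Nat.card_Ioc, nsmul_eq_mul, mul_one, Nat.cast_sub hXY]) (by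
        rw [hT]; simp) κ hκ0.le hκ1 (fun δ hδ => by
        obtain ⟨E₀, hE₀, h2⟩ := hc l (fun _ => q) (fun i => a + h i) (fun _ => hh.2) (fun i i' hii => by
          intro h3
          have h4 := Nat.eq_of_mul_eq_mul_left hh.2 h3
          exact hii (hh.1 (by omega))) g hg j (by rw [hj]; exact pret_lio)
        obtain ⟨N₀, h3⟩ := h2 δ hδ
        refine LZ_mono ?_ (LZ_union hE₀ (Pool.Agent.Y958.U.LZ_bdd {n | n < N₀} N₀ (fun n hn => hn)))
        intro Y hY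
        by_contra hcon
        rw [Set.mem_union, not_or] at hcon
        have h4 := (h3 Y (not_lt.1 hcon.2)).1 hcon.1
        have h5 : ∑ n ∈ Icc 1 Y, ‖g j (q * n + (a + h j))‖ = Y := by
          rw [hj]
          simp only [lioC_norm, sum_const, Nat.card_Icc, nsmul_eq_mul, mul_one, Nat.add_sub_cancel]
        rw [h5] at h4
        have h6 : (1 - c l) * (Y : ℝ) ≤ (1 - κ) * Y := mul_le_mul_of_nonneg_right (by linarith) (Nat.cast_nonneg _)
        have h7 : (1 - κ) * (Y : ℝ) + δ * Y < ‖T Y‖ := hY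
        rw [hT] at h7
        simp only at h7
        linarith) (1 / ((r : ℝ) + 1)) (by positivity)
    refine LZ_mono ?_ h1
    rintro N ⟨_, Y, hY, hlt⟩
    refine ⟨Y, hY, ?_⟩
    rw [hT]
    exact hlt)
  refine ⟨E, hE, fun h hinj q hq a ha δ hδ => ?_⟩
  obtain ⟨r, hr⟩ := exists_nat_one_div_lt (show 0 < δ / 2 by positivity)
  obtain ⟨N₁, h1⟩ := hE1 (h, q, a, r)
  obtain ⟨N₂, h2⟩ := exists_nat_ge (2 / δ)
  refine ⟨N₁ + N₂, fun N hN hNE X hX => ?_⟩
  beta_reduce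
  rw [← hκ]
  have hN0 : (0 : ℝ) ≤ N := Nat.cast_nonneg _
  obtain ⟨h3, h4⟩ := res_class q a X hq ha (fun n => ∏ i, g i (n + h i)) (fun n => by
    rw [norm_prod]
    exact prod_le_one (fun _ _ => norm_nonneg _) fun i _ => (hg i).1 _)
  have h5 : ‖∑ m ∈ Icc 1 ((X - a) / q), ∏ i, g i (q * m + (a + h i))‖ ≤
      (1 - κ) * (((X - a) / q : ℕ) : ℝ) + 1 / ((r : ℝ) + 1) * N := by
    by_contra hcon
    apply hNE
    refine h1 N (by omega) ⟨⟨hinj, hq⟩, (X - a) / q, ?_, not_le.1 hcon⟩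
    calc (X - a) / q ≤ X - a := Nat.div_le_self _ _
      _ ≤ N := by omega
  have h6 : ∑ m ∈ Icc 1 ((X - a) / q), ∏ i, g i (q * m + a + h i) = ∑ m ∈ Icc 1 ((X - a) / q), ∏ i, g i (q * m + (a + h i)) := by
    apply sum_congr rfl
    intro m _
    apply prod_congr rfl
    intro i _
    rw [add_assoc]
  rw [h6] at h3
  refine h3.trans ?_
  have h7 : (1 - κ) * (((X - a) / q : ℕ) : ℝ) ≤ (1 - κ) * (((Icc 1 X).filter (fun n => n % q = a)).card : ℝ) :=
    mul_le_mul_of_nonneg_left (by exact_mod_cast h4) (by linarith)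
  have h8 : 1 / ((r : ℝ) + 1) * N ≤ δ / 2 * N := mul_le_mul_of_nonneg_right hr.le hN0
  have h9 : 1 ≤ δ / 2 * (N : ℝ) := by
    have e1 : (N₂ : ℝ) ≤ N := by exact_mod_cast (by omega : N₂ ≤ N)
    have e2 := h2.trans e1
    rw [div_le_iff₀ hδ] at e2
    linarith
  linarith

end Pool.Agent.E8helper80.FL
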