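import Pool.Agent.E8helper80.FL.Joint
import Pool.Agent.E8helper80.FL.Gap
import Pool.Agent.E8helper80.FL.Cho
import Pool.Agent.E8helper80.MP.Pair

set_option autoImplicit false

/-! The inputs of the general form. -/

namespace Pool.Agent.E8helper80.FL
open Finset
open Pool.Agent.H373R2.T7
open Pool.Agent.H807R2.Dav
open Pool.Agent.Y958.U (LZ)
open Pool.Agent.E8helper80.MP (pr pr_norm pair_scales)

/-- residue classes from phases -/
lemma class_phase (G : ℕ → ℂ) (q a X : ℕ) (ha : a < q) (δ : ℝ)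
    (h : ∀ β : ℝ, ‖∑ n ∈ Icc 1 X, G n * ee ((n : ℝ) * β)‖ ≤ δ) :
    ‖∑ n ∈ (Icc 1 X).filter (fun n => n % q = a), G n‖ ≤ δ := by
  have hq : 1 ≤ q := by omega
  have hq0 : (0 : ℝ) < q := by exact_mod_cast hq
  have h1 : (q : ℂ) * ∑ n ∈ (Icc 1 X).filter (fun n => n % q = a), G n =
      ∑ b ∈ range q, ee (-(a : ℝ) * b / q) * ∑ n ∈ Icc 1 X, G n * ee ((n : ℝ) * (b / q)) := by
    rw [sum_filter, mul_sum]
    simp only [mul_sum]
    rw [sum_comm]
    apply sum_congr rfl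
    intro n _
    have e1 : ∀ b ∈ range q, ee (-(a : ℝ) * b / q) * (G n * ee ((n : ℝ) * (b / q))) =
        G n * ee ((b : ℝ) * (((((n : ℤ) - (a : ℤ) : ℤ)) : ℝ) / q)) := by
      intro b _
      rw [mul_left_comm, ← ee_add]
      congr 2
      push_cast
      ring
    rw [sum_congr rfl e1, ← mul_sum, orth q hq]
    have e2 : (q : ℤ) ∣ (n : ℤ) - a ↔ n % q = a := by
      rw [← Nat.modEq_iff_dvd (a := a) (b := n) (n := q) |>.symm.symm]
      constructor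
      · intro h
        have h2 := h.symm
        unfold Nat.ModEq at h2
        rw [h2, Nat.mod_eq_of_lt ha]
      · intro h
        unfold Nat.ModEq
        rw [h, Nat.mod_eq_of_lt ha]
    by_cases h2 : n % q = a
    · rw [if_pos h2, if_pos (e2.2 h2)]; ring
    · rw [if_neg h2, if_neg (fun h3 => h2 (e2.1 h3))]; ring
  have h2 : (q : ℝ) * ‖∑ n ∈ (Icc 1 X).filter (fun n => n % q = a), G n‖ ≤ q * δ := by
    have e1 : (q : ℝ) * ‖∑ n ∈ (Icc 1 X).filter (fun n => n % q = a), G n‖ =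
        ‖(q : ℂ) * ∑ n ∈ (Icc 1 X).filter (fun n => n % q = a), G n‖ := by
      rw [norm_mul, Complex.norm_natCast]
    rw [e1, h1]
    refine (norm_sum_le _ _).trans ?_
    have e2 : ∀ b ∈ range q, ‖ee (-(a : ℝ) * b / q) * ∑ n ∈ Icc 1 X, G n * ee ((n : ℝ) * (b / q))‖ ≤ δ := by
      intro b _
      rw [norm_mul, norm_ee, one_mul]
      exact h _
    refine (sum_le_sum e2).trans (le_of_eq ?_)
    rw [sum_const, card_range, nsmul_eq_mul]
  exact le_of_mul_le_mul_left h2 hq0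

/-- pairs in residue classes, with phases -/
theorem pair_classes {k : ℕ} (χ : ℕ → Fin k) (A : Multiset (Fin k × ℕ) → ℂ) (hA : ∀ s, ‖A s‖ ≤ 1) (g : ℕ → ℂ)
    (hg : ∀ n, 1 ≤ n → ‖g n‖ ≤ 1)
    (hm : ∀ m n : ℕ, 1 ≤ m → 1 ≤ n → Nat.Coprime m n → g (m * n) = g m * g n) :
    ∃ E : Set ℕ, LZ E ∧ ∀ a c : ℕ, a ≠ c → ∀ q : ℕ, ∀ u : ℕ, u < q → ∀ δ : ℝ, 0 < δ → ∃ N₀ : ℕ, ∀ N : ℕ, N₀ ≤ N →
      N ∉ E → ∀ β : ℝ, ∀ X : ℕ, X ≤ N →
        ‖∑ n ∈ (Icc 1 X).filter (fun n => n % q = u), pr χ A g a c n * ee ((n : ℝ) * β)‖ ≤ δ * N := by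
  obtain ⟨E, hE, h1⟩ := pair_scales χ A hA g hg hm
  refine ⟨E, hE, fun a c hac q u hu δ hδ => ?_⟩
  obtain ⟨N₀, h2⟩ := h1 a c hac δ hδ
  refine ⟨N₀, fun N hN hNE β X hX => ?_⟩
  apply class_phase _ q u X hu
  intro β'
  refine le_trans (le_of_eq ?_) (h2 N hN hNE (β + β') X (by omega))
  congr 1
  apply sum_congr rfl
  intro n _
  rw [mul_assoc, ← ee_add]
  congr 2
  ring

end Pool.Agent.E8helper80.FL
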