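import Pool.Agent.E8helper80.FL.Crit

set_option autoImplicit false

/-! The general form: from residue classes to moving shifts of the von Mangoldt function. -/

namespace Pool.Agent.E8helper80.FL
open Finset
open Pool.Agent.H373R2.T7

/-- the model from the residue classes, with a gap -/
lemma twz_gap {k : ℕ} (z : ℕ) (g : ℕ → ℂ) (s : Fin k → ℕ → ℕ) (m : Fin k → ℕ) (X : ℕ) (κ δ : ℝ) (hκ : κ ≤ 1)
    (h : ∀ a, a < Pz z → ‖∑ n ∈ (Icc 1 X).filter (fun n => n % Pz z = a), g n‖ ≤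
      (1 - κ) * (((Icc 1 X).filter (fun n => n % Pz z = a)).card : ℝ) + δ) (hδ : 0 ≤ δ) :
    ‖twz z g s m X‖ ≤ (1 - κ) * ∑ n ∈ Icc 1 X, ∏ i, lamz z (n + s i (m i)) + Pz z * (((Vz z)⁻¹) ^ k * δ) := by
  unfold twz
  rw [← sum_fiberwise_of_maps_to (s := Icc 1 X) (t := range (Pz z))
    (g := fun n => n % Pz z) (fun n _ => mem_range.2 (Nat.mod_lt _ (Pz_pos z)))]
  have hfib : ∑ n ∈ Icc 1 X, ∏ i, lamz z (n + s i (m i)) = ∑ a ∈ range (Pz z),
      (((Icc 1 X).filter (fun n => n % Pz z = a)).card : ℝ) * ∏ i, lamz z (a + s i (m i)) := by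
    rw [← sum_fiberwise_of_maps_to (s := Icc 1 X) (t := range (Pz z))
      (g := fun n => n % Pz z) (fun n _ => mem_range.2 (Nat.mod_lt _ (Pz_pos z)))]
    apply sum_congr rfl
    intro a _
    rw [← nsmul_eq_mul, ← sum_const]
    apply sum_congr rfl
    intro n hn
    rw [mem_filter] at hn
    apply prod_congr rfl
    intro i _
    rw [← lamz_per z n, hn.2]
  refine (norm_sum_le _ _).trans ?_
  have h1 : ∀ a ∈ range (Pz z), ‖∑ n ∈ (Icc 1 X).filter (fun n => n % Pz z = a), g n * ((∏ i, lamz z (n + s i (m i)) : ℝ) : ℂ)‖ ≤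
      (1 - κ) * ((((Icc 1 X).filter (fun n => n % Pz z = a)).card : ℝ) * ∏ i, lamz z (a + s i (m i))) + ((Vz z)⁻¹) ^ k * δ := by
    intro a ha
    have h2 : ∑ n ∈ (Icc 1 X).filter (fun n => n % Pz z = a), g n * ((∏ i, lamz z (n + s i (m i)) : ℝ) : ℂ) =
        (∑ n ∈ (Icc 1 X).filter (fun n => n % Pz z = a), g n) * ((∏ i, lamz z (a + s i (m i)) : ℝ) : ℂ) := by
      rw [sum_mul]
      apply sum_congr rfl
      intro n hn
      rw [mem_filter] at hn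
      congr 2
      apply prod_congr rfl
      intro i _
      rw [← lamz_per z n, hn.2]
    have h0 : 0 ≤ ∏ i, lamz z (a + s i (m i)) := prod_nonneg fun i _ => lamz_nonneg _ _
    rw [h2, norm_mul, Complex.norm_real, Real.norm_of_nonneg h0]
    have h3 : ∏ i, lamz z (a + s i (m i)) ≤ ((Vz z)⁻¹) ^ k := by
      calc ∏ i, lamz z (a + s i (m i)) ≤ ∏ _i : Fin k, (Vz z)⁻¹ :=
            prod_le_prod (fun i _ => lamz_nonneg _ _) (fun i _ => lamz_le_inv z _)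
        _ = _ := by rw [prod_const, card_univ, Fintype.card_fin]
    have h4 := mul_le_mul_of_nonneg_right (h a (mem_range.1 ha)) h0
    have h5 := mul_le_mul_of_nonneg_right h3 hδ
    linarith
  refine (sum_le_sum h1).trans (le_of_eq ?_)
  rw [sum_add_distrib, ← mul_sum, ← hfib, sum_const, card_range, nsmul_eq_mul]

open Classical in
/-- **from residue classes to moving shifts** -/
theorem joint (Γ : ℕ → Set (ℕ → ℂ)) (hΓ : ∀ N, ∀ g ∈ Γ N, ∀ n, ‖g n‖ ≤ 1) (κ : ℝ) (hκ0 : 0 ≤ κ) (hκ : κ ≤ 1)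
    (h : ∀ q : ℕ, Squarefree q → ∀ a : ℕ, a < q → ∀ δ : ℝ, 0 < δ → ∃ N₀ : ℕ, ∀ N : ℕ, N₀ ≤ N → ∀ g ∈ Γ N, ∀ X : ℕ, X ≤ N →
      ‖∑ n ∈ (Icc 1 X).filter (fun n => n % q = a), g n‖ ≤
        (1 - κ) * (((Icc 1 X).filter (fun n => n % q = a)).card : ℝ) + δ * N)
    (k p B : ℕ) (C : ℝ) (hC : 0 ≤ C) (ε : ℝ) (hε : 0 < ε) : ∃ N₀ : ℕ, ∀ N : ℕ, N₀ ≤ N → ∀ g ∈ Γ N,
    ∀ (x : Fin k → ℕ) (s : Fin k → ℕ → ℕ), (∀ i, Fam p B C N (x i) (fun m => (s i m : ℤ))) →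
    (((Fintype.piFinset (fun i => Icc 1 (x i))).filter (fun m : Fin k → ℕ => ∃ X : ℕ, X ≤ N ∧
      (1 - κ) * (∑ n ∈ Icc 1 X, ∏ i, ArithmeticFunction.vonMangoldt (n + s i (m i))) + ε * N < ‖tw g s m X‖)).card : ℝ) ≤
      ε * ∏ i, (x i : ℝ) := by
  obtain ⟨z, hz⟩ := red k p B C hC (ε / 4) (by positivity)
  obtain ⟨N₀, h1⟩ := hz z le_rfl
  obtain ⟨W, hW⟩ : ∃ W : ℝ, W = Pz z * ((Vz z)⁻¹) ^ k := ⟨_, rfl⟩
  have hP0 : (0 : ℝ) < Pz z := by exact_mod_cast Pz_pos z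
  have hV0 : 0 < ((Vz z)⁻¹) ^ k := pow_pos (inv_pos.2 (Vz_pos z)) _
  have hW0 : 0 < W := by rw [hW]; positivity
  have hex : ∀ a : ℕ, ∃ N₀ : ℕ, a < Pz z → ∀ N : ℕ, N₀ ≤ N → ∀ g ∈ Γ N, ∀ X : ℕ, X ≤ N →
      ‖∑ n ∈ (Icc 1 X).filter (fun n => n % Pz z = a), g n‖ ≤
        (1 - κ) * (((Icc 1 X).filter (fun n => n % Pz z = a)).card : ℝ) + (ε / 4 / W) * N := by
    intro a
    by_cases ha : a < Pz z
    · obtain ⟨N₀, h2⟩ := h (Pz z) (Pz_squarefree z) a ha (ε / 4 / W) (by positivity)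
      exact ⟨N₀, fun _ => h2⟩
    · exact ⟨0, fun h => absurd h ha⟩
  choose M hM using hex
  refine ⟨N₀ + (range (Pz z)).sup M, fun N hN g hg x s hF => ?_⟩
  have hN0 : (0 : ℝ) ≤ N := Nat.cast_nonneg _
  have hmodel : ∀ (m : Fin k → ℕ) (X : ℕ), X ≤ N → ‖twz z g s m X‖ ≤
      (1 - κ) * ∑ n ∈ Icc 1 X, ∏ i, lamz z (n + s i (m i)) + ε / 4 * N := by
    intro m X hX
    refine (twz_gap z g s m X κ (ε / 4 / W * N) hκ (fun a ha => hM a ha N ?_ g hg X hX) (by positivity)).trans (le_of_eq ?_)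
    · have := le_sup (f := M) (mem_range.2 ha)
      omega
    · congr 1
      calc (Pz z : ℝ) * (((Vz z)⁻¹) ^ k * (ε / 4 / W * N)) = (Pz z * ((Vz z)⁻¹) ^ k) / W * (ε / 4 * N) := by ring
        _ = ε / 4 * N := by rw [← hW, div_self hW0.ne', one_mul]
  have a1 := h1 N (by omega) x s hF g (hΓ N g hg)
  have a2 := h1 N (by omega) x s hF (fun _ => 1) (fun _ => by simp)
  have hprod : 0 ≤ ∏ i, (x i : ℝ) := prod_nonneg fun _ _ => Nat.cast_nonneg _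
  obtain ⟨Box, hBox⟩ : ∃ Box : Finset (Fin k → ℕ), Box = Fintype.piFinset (fun i => Icc 1 (x i)) := ⟨_, rfl⟩
  rw [← hBox] at a1 a2 ⊢
  have hsub : Box.filter (fun m : Fin k → ℕ => ∃ X : ℕ, X ≤ N ∧
      (1 - κ) * (∑ n ∈ Icc 1 X, ∏ i, ArithmeticFunction.vonMangoldt (n + s i (m i))) + ε * N < ‖tw g s m X‖) ⊆
      Box.filter (fun m : Fin k → ℕ => ∃ X : ℕ, X ≤ N ∧ ε / 4 * N < ‖tw g s m X - twz z g s m X‖) ∪
      Box.filter (fun m : Fin k → ℕ => ∃ X : ℕ, X ≤ N ∧ ε / 4 * N < ‖tw (fun _ => 1) s m X - twz z (fun _ => 1) s m X‖) := by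
    intro m hm
    rw [mem_filter] at hm
    obtain ⟨hm1, X, hX, hlt⟩ := hm
    rw [mem_union, mem_filter, mem_filter]
    by_contra hcon
    rw [not_or] at hcon
    obtain ⟨c1, c2⟩ := hcon
    have d1 : ‖tw g s m X - twz z g s m X‖ ≤ ε / 4 * N := by
      by_contra h
      exact c1 ⟨hm1, X, hX, not_le.1 h⟩
    have d2 : ‖tw (fun _ => 1) s m X - twz z (fun _ => 1) s m X‖ ≤ ε / 4 * N := by
      by_contra h
      exact c2 ⟨hm1, X, hX, not_le.1 h⟩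
    have d3 : |∑ n ∈ Icc 1 X, ∏ i, ArithmeticFunction.vonMangoldt (n + s i (m i)) - ∑ n ∈ Icc 1 X, ∏ i, lamz z (n + s i (m i))| ≤ ε / 4 * N := by
      refine le_trans (le_of_eq ?_) d2
      rw [← Real.norm_eq_abs, ← Complex.norm_real]
      congr 1
      unfold tw twz
      push_cast
      simp only [one_mul]
    have d4 := (abs_le.1 d3).1
    have d5 := hmodel m X hX
    have d6 : tw g s m X = (tw g s m X - twz z g s m X) + twz z g s m X := by ring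
    have d7 := norm_add_le (tw g s m X - twz z g s m X) (twz z g s m X)
    rw [← d6] at d7
    have d8 : (1 - κ) * ∑ n ∈ Icc 1 X, ∏ i, lamz z (n + s i (m i)) ≤
        (1 - κ) * (∑ n ∈ Icc 1 X, ∏ i, ArithmeticFunction.vonMangoldt (n + s i (m i)) + ε / 4 * N) :=
      mul_le_mul_of_nonneg_left (by linarith) (by linarith)
    have d9 : (1 - κ) * (ε / 4 * (N : ℝ)) ≤ 1 * (ε / 4 * N) := mul_le_mul_of_nonneg_right (by linarith) (by positivity)
    nlinarith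
  refine (Nat.cast_le.2 (card_le_card hsub)).trans ?_
  refine (Nat.cast_le.2 (card_union_le _ _)).trans ?_
  rw [Nat.cast_add]
  have e1 : ε / 4 * ∏ i, (x i : ℝ) + ε / 4 * ∏ i, (x i : ℝ) ≤ ε * ∏ i, (x i : ℝ) := by
    have : 0 ≤ ε * ∏ i, (x i : ℝ) := by positivity
    linarith
  exact (add_le_add a1 a2).trans e1

end Pool.Agent.E8helper80.FL
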