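import Pool.Agent.E8helper80.FL.Chain
import Pool.Agent.H373R2.T7.SupE2

set_option autoImplicit false

/-! From the von Mangoldt function to a fixed sieve model, without loss: the first step. -/

namespace Pool.Agent.E8helper80.FL
open Finset
open Pool.Agent.H807R2.Dav
open Pool.Agent.H373R2.T7

/-- the von Mangoldt function and a model of level a power of the logarithm -/
theorem lam_model (k p B : ℕ) (C : ℝ) (hC : 0 ≤ C) : ∃ b : ℕ, 1 ≤ b ∧ ∀ E : ℕ, ∃ N₀ : ℕ, ∀ N : ℕ, N₀ ≤ N → ∀ z : ℕ,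
    Real.log N ^ b ≤ z → (z : ℝ) ≤ Real.log N ^ E → ∀ (x : Fin k → ℕ) (s : Fin k → ℕ → ℤ),
    (∀ i, Fam p B C N (x i) (s i)) → ∀ A : ℕ, A ≤ N → ∀ G : ℕ → ℝ, (∀ n ∈ Icc 1 A, |G n| ≤ 1) →
    M1 x s A G (fun n => ArithmeticFunction.vonMangoldt n) (lamz z) ≤ 1 / Real.log N * N * ∏ i, (x i : ℝ) := by
  obtain ⟨U, hU⟩ : ∃ U : ℕ, U = 2 * p * (k + 3) + k + 3 := ⟨_, rfl⟩
  obtain ⟨B1, hsup⟩ := sup_diff U
  refine ⟨B1 + 1, by omega, fun E => ?_⟩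
  obtain ⟨n1, h1⟩ := hsup E
  obtain ⟨K, hK⟩ : ∃ K : ℝ, K = k * 2 ^ k * ((4 * p + 5) * (B + 1) * C * (2 * (B + 1)) + 2 * (B + 1) * 2) := ⟨_, rfl⟩
  have hK0 : 0 ≤ K := by rw [hK]; positivity
  obtain ⟨n2, h2⟩ := ev_L' (Real.log (2 * (B + 1)) + 2 ^ B1 + K + 1)
  obtain ⟨n3, h3⟩ := Vz_inv_small E
  refine ⟨n1 + n2 + n3 + 3, fun N hN z hz1 hz2 x s hF A hA G hG => ?_⟩
  have hN1 : 1 ≤ N := by omega
  have hN3 : (3 : ℝ) ≤ N := by exact_mod_cast (by omega : 3 ≤ N)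
  have hN0 : (0 : ℝ) < N := by linarith
  have hL := h2 N (by omega)
  obtain ⟨L, hLd⟩ : ∃ L, L = Real.log (N : ℝ) := ⟨_, rfl⟩
  rw [← hLd] at hL hz1 hz2
  have hB1 : (1 : ℝ) ≤ 2 * ((B : ℝ) + 1) := by
    have : (0 : ℝ) ≤ B := Nat.cast_nonneg _
    linarith
  have hlB : 0 ≤ Real.log (2 * ((B : ℝ) + 1)) := Real.log_nonneg hB1
  have h2B : (0 : ℝ) < 2 ^ B1 := by positivity
  have hL1 : 1 ≤ L := by linarith
  have hL0 : 0 < L := by linarith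
  have hz : 1 ≤ z := by
    have : (1 : ℝ) ≤ z := (one_le_pow₀ hL1).trans hz1
    exact_mod_cast this
  obtain ⟨H, hH⟩ : ∃ H : ℕ, H = 2 * ((B + 1) * N) := ⟨_, rfl⟩
  have hHN : N ≤ H := by
    rw [hH]
    nlinarith
  have hHr : (H : ℝ) = 2 * (B + 1) * N := by rw [hH]; push_cast; ring
  have hlogH1 : L ≤ Real.log H := by rw [hLd]; exact Real.log_le_log hN0 (by exact_mod_cast hHN)
  have hlogH2 : Real.log H ≤ 2 * L := by
    rw [hHr, Real.log_mul (by positivity) hN0.ne', ← hLd]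
    linarith
  have hV := h3 N (by omega) z hz (by rw [← hLd]; exact hz2)
  rw [← hLd] at hV
  have hsup1 : ∀ α : ℝ, ‖∑ n ∈ Icc 1 (2 * ((B + 1) * N)), ((ArithmeticFunction.vonMangoldt n - lamz z n : ℝ) : ℂ) * ee ((n : ℝ) * α)‖ ≤
      (2 * (B + 1) / L ^ U) * N := by
    intro α
    have e1 := h1 H (by omega) z (by
      calc Real.log H ^ B1 ≤ (2 * L) ^ B1 := pow_le_pow_left₀ (hL0.le.trans hlogH1) hlogH2 _
        _ = 2 ^ B1 * L ^ B1 := mul_pow _ _ _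
        _ ≤ L * L ^ B1 := mul_le_mul_of_nonneg_right (by linarith) (by positivity)
        _ = L ^ (B1 + 1) := by ring
        _ ≤ z := hz1) (hz2.trans (pow_le_pow_left₀ hL0.le hlogH1 _)) α
    rw [hH] at e1
    refine e1.trans ?_
    have e2 : L ^ U ≤ Real.log ((2 * ((B + 1) * N) : ℕ) : ℝ) ^ U := by
      rw [← hH]
      exact pow_le_pow_left₀ hL0.le hlogH1 _
    refine (div_le_div_of_nonneg_left (by positivity) (by positivity) e2).trans (le_of_eq ?_)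
    push_cast
    ring
  obtain ⟨η, hη⟩ : ∃ η, η = 1 / L ^ (k + 3) := ⟨_, rfl⟩
  have hη0 : 0 < η := by rw [hη]; positivity
  have key := swap p B C hC N hN1 x s hF A hA (fun n => ArithmeticFunction.vonMangoldt n) (lamz z) (2 * (B + 1) / L ^ U) (2 * L)
    hsup1 (by linarith)
    (fun n hn => ⟨ArithmeticFunction.vonMangoldt_nonneg, by
      rw [mem_Icc, ← hH] at hn
      refine ArithmeticFunction.vonMangoldt_le_log.trans (le_trans ?_ hlogH2)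
      exact Real.log_le_log (by exact_mod_cast hn.1) (by exact_mod_cast hn.2)⟩)
    (fun n _ => ⟨lamz_nonneg _ _, (lamz_le_inv _ _).trans (by linarith)⟩) η hη0 G hG
  unfold M1
  refine key.trans ?_
  have hprod : 0 ≤ ∏ i, (x i : ℝ) := prod_nonneg fun _ _ => Nat.cast_nonneg _
  apply mul_le_mul_of_nonneg_right _ hprod
  apply mul_le_mul_of_nonneg_right _ hN0.le
  have e1 : 2 * ((B : ℝ) + 1) / L ^ U / η ^ (2 * p) = 2 * (B + 1) * η := by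
    rw [hη, div_pow, one_pow, ← pow_mul, hU]
    have e : L ^ (2 * p * (k + 3) + k + 3) = L ^ ((k + 3) * (2 * p)) * L ^ (k + 3) := by
      rw [← pow_add]; congr 1; ring
    rw [e]
    field_simp
  have e2 : (4 * (p : ℝ) + 5) * (B + 1) * C * (2 * (B + 1) / L ^ U) / η ^ (2 * p) = (4 * p + 5) * (B + 1) * C * (2 * (B + 1)) * η := by
    calc _ = (4 * (p : ℝ) + 5) * (B + 1) * C * (2 * (B + 1) / L ^ U / η ^ (2 * p)) := by ring
      _ = _ := by rw [e1]; ring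
  rw [e2]
  have e3 : (4 * (p : ℝ) + 5) * (B + 1) * C * (2 * (B + 1)) * η ≤ (4 * p + 5) * (B + 1) * C * (2 * (B + 1)) * η * L :=
    le_mul_of_one_le_right (by positivity) hL1
  calc (k : ℝ) * (2 * L) ^ k * ((4 * p + 5) * (B + 1) * C * (2 * (B + 1)) * η + 2 * (B + 1) * η * (2 * L)) ≤
        k * (2 * L) ^ k * ((4 * p + 5) * (B + 1) * C * (2 * (B + 1)) * η * L + 2 * (B + 1) * η * (2 * L)) :=
        mul_le_mul_of_nonneg_left (by linarith) (by positivity)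
    _ = K * (L ^ (k + 1) * η) := by rw [hK, mul_pow]; ring
    _ = K / L * (1 / L) := by
        rw [hη]
        have e : L ^ (k + 3) = L ^ (k + 1) * L * L := by rw [pow_add, pow_add]; ring
        rw [e]
        field_simp
    _ ≤ 1 * (1 / L) := by
        apply mul_le_mul_of_nonneg_right _ (by positivity)
        rw [div_le_one hL0]
        linarith
    _ = 1 / Real.log N := by rw [one_mul, hLd]

/-- **the von Mangoldt function and a fixed model** -/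
theorem lam_fixed (k p B : ℕ) (C : ℝ) (hC : 0 ≤ C) : ∃ z₁ : ℕ, ∀ z : ℕ, z₁ ≤ z → ∃ N₀ : ℕ, ∀ N : ℕ, N₀ ≤ N →
    ∀ (x : Fin k → ℕ) (s : Fin k → ℕ → ℤ), (∀ i, Fam p B C N (x i) (s i)) → ∀ A : ℕ, A ≤ N →
    ∀ G : ℕ → ℝ, (∀ n ∈ Icc 1 A, |G n| ≤ 1) →
    M1 x s A G (fun n => ArithmeticFunction.vonMangoldt n) (lamz z) ≤ (z : ℝ) ^ (-(1 / (32 * ((p : ℝ) + 1)))) * N * ∏ i, (x i : ℝ) := by
  obtain ⟨b, hb1, hlam⟩ := lam_model k p B C hC
  obtain ⟨z₁, hch⟩ := chain k p B C hC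
  refine ⟨z₁ + 2, fun z hz => ?_⟩
  obtain ⟨N₁, h1⟩ := hlam (2 * b)
  obtain ⟨N₂, h2⟩ := hch (2 * b)
  have hz0 : (0 : ℝ) < z := by exact_mod_cast (by omega : 0 < z)
  obtain ⟨v, hv⟩ : ∃ v, v = 1 / 2 * (z : ℝ) ^ (-(1 / (32 * ((p : ℝ) + 1)))) := ⟨_, rfl⟩
  have hv0 : 0 < v := by rw [hv]; have := Real.rpow_pos_of_pos hz0 (-(1 / (32 * ((p : ℝ) + 1)))); linarith
  obtain ⟨N₃, h3⟩ := ev_L' (z + 1 / v + 1)
  refine ⟨N₁ + N₂ + N₃ + 3, fun N hN x s hF A hA G hG => ?_⟩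
  have hL := h3 N (by omega)
  obtain ⟨L, hLd⟩ : ∃ L, L = Real.log (N : ℝ) := ⟨_, rfl⟩
  rw [← hLd] at hL
  have hv1 : 0 < 1 / v := by positivity
  have hL1 : 1 ≤ L := by linarith
  have hL0 : 0 < L := by linarith
  have hLz : (z : ℝ) < L := by linarith
  -- the level
  have hex : ∃ J : ℕ, L ^ b ≤ ((z ^ 2 ^ J : ℕ) : ℝ) := by
    obtain ⟨J, hJ⟩ := exists_nat_ge (L ^ b)
    refine ⟨J, hJ.trans ?_⟩
    have h4 := chain_pow z J (by omega)
    have h5 : J < 2 ^ J := Nat.lt_two_pow_self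
    exact_mod_cast (by nlinarith : J ≤ z ^ 2 ^ J)
  obtain ⟨J, hJ, hmin⟩ : ∃ J : ℕ, L ^ b ≤ ((z ^ 2 ^ J : ℕ) : ℝ) ∧ ∀ j < J, ((z ^ 2 ^ j : ℕ) : ℝ) < L ^ b := by
    classical
    exact ⟨Nat.find hex, Nat.find_spec hex, fun j hj => not_le.1 (Nat.find_min hex hj)⟩
  have hJ2 : ((z ^ 2 ^ J : ℕ) : ℝ) ≤ L ^ (2 * b) := by
    rcases Nat.eq_zero_or_pos J with h0 | h0
    · rw [h0, pow_zero, pow_one]
      refine hLz.le.trans ?_
      exact le_self_pow₀ hL1 (by omega)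
    · have h4 := hmin (J - 1) (by omega)
      have h5 : z ^ 2 ^ J = (z ^ 2 ^ (J - 1)) ^ 2 := by
        rw [← pow_mul, ← pow_succ, Nat.sub_add_cancel h0]
      rw [h5]
      push_cast at h4 ⊢
      calc (((z : ℝ) ^ 2 ^ (J - 1)) ^ 2) ≤ (L ^ b) ^ 2 := pow_le_pow_left₀ (by positivity) h4.le 2
        _ = _ := by rw [← pow_mul]; congr 1; ring
  have a1 := h1 N (by omega) (z ^ 2 ^ J) (by rw [← hLd]; exact hJ) (by rw [← hLd]; exact hJ2) x s hF A hA G hG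
  have a2 := h2 N (by omega) z (by omega) J (by rw [← hLd]; exact hJ2) x s hF A hA G hG
  refine (M1_tri x s A G _ (lamz (z ^ 2 ^ J)) _).trans ((add_le_add a1 a2).trans ?_)
  have hprod : 0 ≤ ∏ i, (x i : ℝ) := prod_nonneg fun _ _ => Nat.cast_nonneg _
  have hNP : 0 ≤ (N : ℝ) * ∏ i, (x i : ℝ) := mul_nonneg (Nat.cast_nonneg _) hprod
  have h4 : 1 / L ≤ v := by
    rw [div_le_iff₀ hL0]
    have : 1 / v ≤ L := by linarith
    rw [div_le_iff₀ hv0] at this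
    linarith
  rw [← hLd, ← hv]
  have h5 : (z : ℝ) ^ (-(1 / (32 * ((p : ℝ) + 1)))) = v + v := by rw [hv]; ring
  rw [h5]
  have h6 := mul_le_mul_of_nonneg_right h4 hNP
  calc 1 / L * N * ∏ i, (x i : ℝ) + v * N * ∏ i, (x i : ℝ) = 1 / L * (N * ∏ i, (x i : ℝ)) + v * (N * ∏ i, (x i : ℝ)) := by ring
    _ ≤ v * (N * ∏ i, (x i : ℝ)) + v * (N * ∏ i, (x i : ℝ)) := by linarith
    _ = _ := by ring

end Pool.Agent.E8helper80.FL
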