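import Pool.Agent.E8helper80.FL.Minor

set_option autoImplicit false

/-! Minor arcs for two sieve models of small levels. -/

namespace Pool.Agent.E8helper80.FL
open Finset
open Pool.Agent.H807R2.Dav
open Pool.Agent.H373R2.T7

/-- powers of the logarithm of `w` against `√w` -/
lemma pow_log_le (K : ℝ) (j : ℕ) : ∃ w₀ : ℕ, ∀ w : ℕ, w₀ ≤ w → K * (1 + Real.log w) ^ j ≤ √(w : ℝ) := by
  have h1 : Filter.Tendsto (fun x : ℝ => (1 + Real.log x) ^ j / √x) Filter.atTop (nhds 0) := by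
    have h2 : (fun x : ℝ => 1 + Real.log x) =O[Filter.atTop] Real.log := by
      have h3 : (fun _ : ℝ => (1 : ℝ)) =O[Filter.atTop] Real.log := by
        apply Asymptotics.IsLittleO.isBigO
        rw [Asymptotics.isLittleO_const_left]
        right
        exact tendsto_norm_atTop_atTop.comp Real.tendsto_log_atTop
      exact h3.add (Asymptotics.isBigO_refl _ _)
    have h4 : (fun x : ℝ => (1 + Real.log x) ^ j) =O[Filter.atTop] (fun x => Real.log x ^ j) := h2.pow j
    have h5 : (fun x : ℝ => Real.log x ^ j) =o[Filter.atTop] (fun x => √x) := by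
      have h6 := isLittleO_log_rpow_rpow_atTop (s := 1 / 2) (j : ℝ) (by norm_num)
      refine h6.congr (fun x => ?_) (fun x => ?_)
      · rw [Real.rpow_natCast]
      · rw [Real.sqrt_eq_rpow]
    exact (h4.trans_isLittleO h5).tendsto_div_nhds_zero
  have h2 : Filter.Tendsto (fun w : ℕ => |K| * ((1 + Real.log (w : ℝ)) ^ j / √(w : ℝ))) Filter.atTop (nhds 0) := by
    have h3 := (h1.comp tendsto_natCast_atTop_atTop).const_mul |K|
    rw [mul_zero] at h3
    exact h3
  obtain ⟨N₀, h3⟩ := Filter.eventually_atTop.1 (h2.eventually_lt_const one_pos)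
  refine ⟨N₀ + 1, fun w hw => ?_⟩
  have h4 := h3 w (by omega)
  have hw0 : (0 : ℝ) < √(w : ℝ) := by
    apply Real.sqrt_pos.2
    exact_mod_cast (by omega : 0 < w)
  have hl : 0 ≤ Real.log (w : ℝ) := Real.log_natCast_nonneg w
  rw [← mul_div_assoc, div_lt_one hw0] at h4
  have h6 : K * (1 + Real.log (w : ℝ)) ^ j ≤ |K| * (1 + Real.log (w : ℝ)) ^ j :=
    mul_le_mul_of_nonneg_right (le_abs_self K) (by positivity)
  linarith

/-- everything of polynomial size in `log N` and of size `exp ((log log N) ^ 2)` is small -/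
lemma ev_small (E : ℕ) : ∃ N₀ : ℕ, ∀ N : ℕ, N₀ ≤ N → 1 ≤ Real.log N ∧ Real.exp (27 * (1 + E * Real.log (Real.log N)) ^ 2) ≤ √(N : ℝ) ∧
    (√(N : ℝ) + Real.log N ^ E) * (1 + E * Real.log (Real.log N)) * Real.log N ^ E ≤ N := by
  have hlim : Filter.Tendsto (fun N : ℕ => Real.log (N : ℝ)) Filter.atTop Filter.atTop :=
    Real.tendsto_log_atTop.comp (tendsto_natCast_atTop_atTop (R := ℝ))
  have h1 : ∀ᶠ L : ℝ in Filter.atTop, 27 * (1 + E * Real.log L) ^ 2 ≤ L / 2 := by
    have h2 : (fun x : ℝ => 27 * (1 + E * Real.log x) ^ 2) =o[Filter.atTop] (fun x => x) := by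
      apply Asymptotics.IsLittleO.const_mul_left
      have h3 : (fun x : ℝ => 1 + E * Real.log x) =o[Filter.atTop] (fun x => x ^ (1 / 2 : ℝ)) := by
        apply Asymptotics.IsLittleO.add
        · rw [Asymptotics.isLittleO_const_left]
          right
          exact tendsto_norm_atTop_atTop.comp (tendsto_rpow_atTop (by norm_num))
        · exact (isLittleO_log_rpow_atTop (by norm_num)).const_mul_left _
      have h4 := h3.pow (n := 2) (by norm_num)
      refine h4.congr' Filter.EventuallyEq.rfl ?_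
      filter_upwards [Filter.eventually_ge_atTop 0] with x hx
      rw [← Real.rpow_natCast, ← Real.rpow_mul hx]
      norm_num
    have h3 := h2.bound (show (0 : ℝ) < 1 / 2 by norm_num)
    filter_upwards [h3, Filter.eventually_ge_atTop 0] with x hx hx0
    rw [Real.norm_of_nonneg (by positivity), Real.norm_of_nonneg hx0] at hx
    linarith
  have h2 : ∀ᶠ L : ℝ in Filter.atTop, (Real.exp (L / 2) + L ^ E) * (1 + E * Real.log L) * L ^ E ≤ Real.exp L := by
    -- bound by `3 E' L ^ (2 E + 1) exp (L / 2)`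
    have h3 : ∀ᶠ L : ℝ in Filter.atTop, (2 * (1 + E)) * L ^ (2 * E + 1) ≤ Real.exp (L / 2) := by
      have h4 := Real.tendsto_pow_mul_exp_neg_atTop_nhds_zero (2 * E + 1)
      have h5 : Filter.Tendsto (fun L : ℝ => (2 * (1 + (E : ℝ))) * 2 ^ (2 * E + 1) * ((L / 2) ^ (2 * E + 1) * Real.exp (-(L / 2))))
          Filter.atTop (nhds 0) := by
        have h6 := (h4.comp (Filter.tendsto_id.atTop_div_const (show (0 : ℝ) < 2 by norm_num))).const_mul
          ((2 * (1 + (E : ℝ))) * 2 ^ (2 * E + 1))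
        rw [mul_zero] at h6
        exact h6
      filter_upwards [h5.eventually_lt_const one_pos] with L hL
      rw [Real.exp_neg] at hL
      have hpos := Real.exp_pos (L / 2)
      have h7 : (2 * (1 + (E : ℝ))) * L ^ (2 * E + 1) / Real.exp (L / 2) < 1 := by
        refine lt_of_le_of_lt (le_of_eq ?_) hL
        rw [div_pow]
        field_simp
      rw [div_lt_one hpos] at h7
      exact h7.le
    have h8 : ∀ᶠ L : ℝ in Filter.atTop, Real.log L ≤ L := by
      filter_upwards [Filter.eventually_gt_atTop 0] with L hL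
      linarith [Real.log_le_sub_one_of_pos hL]
    have h9 : ∀ᶠ L : ℝ in Filter.atTop, L ^ E ≤ Real.exp (L / 2) := by
      filter_upwards [h3, Filter.eventually_ge_atTop 1] with L hL hL1
      refine le_trans ?_ hL
      have e1 : L ^ E ≤ L ^ (2 * E + 1) := pow_le_pow_right₀ hL1 (by omega)
      have e2 : (0 : ℝ) ≤ E := Nat.cast_nonneg _
      have e3 : 0 ≤ L ^ (2 * E + 1) := by positivity
      nlinarith
    filter_upwards [h3, h8, h9, Filter.eventually_ge_atTop 1] with L a1 a2 a3 a4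
    have hlog0 : 0 ≤ Real.log L := Real.log_nonneg a4
    have hE0 : (0 : ℝ) ≤ E := Nat.cast_nonneg _
    have hexp := Real.exp_pos (L / 2)
    have e1 : 1 + E * Real.log L ≤ (1 + E) * L := by nlinarith
    calc (Real.exp (L / 2) + L ^ E) * (1 + E * Real.log L) * L ^ E ≤
          (2 * Real.exp (L / 2)) * ((1 + E) * L) * L ^ E := by
          apply mul_le_mul_of_nonneg_right _ (by positivity)
          exact mul_le_mul (by linarith) e1 (by positivity) (by positivity)
      _ = Real.exp (L / 2) * ((2 * (1 + E)) * L ^ (E + 1)) := by ring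
      _ ≤ Real.exp (L / 2) * ((2 * (1 + E)) * L ^ (2 * E + 1)) := by
          apply mul_le_mul_of_nonneg_left _ hexp.le
          apply mul_le_mul_of_nonneg_left _ (by positivity)
          exact pow_le_pow_right₀ a4 (by omega)
      _ ≤ Real.exp (L / 2) * Real.exp (L / 2) := mul_le_mul_of_nonneg_left a1 hexp.le
      _ = Real.exp L := by rw [← Real.exp_add]; congr 1; ring
  obtain ⟨N₀, h0⟩ := Filter.eventually_atTop.1 ((hlim.eventually h1).and ((hlim.eventually h2).and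
    (hlim.eventually_ge_atTop 1)))
  refine ⟨N₀ + 1, fun N hN => ?_⟩
  obtain ⟨a1, a2, a3⟩ := h0 N (by omega)
  have hN0 : (0 : ℝ) < N := by exact_mod_cast (by omega : 0 < N)
  have hs : Real.exp (Real.log N / 2) = √(N : ℝ) := by
    rw [Real.sqrt_eq_rpow, Real.rpow_def_of_pos hN0]
    congr 1
    ring
  refine ⟨a3, ?_, ?_⟩
  · rw [← hs]
    exact Real.exp_le_exp.2 a1
  · rw [Real.exp_log hN0, hs] at a2
    exact a2

/-- **minor arcs** -/
theorem minor2 : ∃ w₀ : ℕ, ∀ E : ℕ, ∃ N₀ : ℕ, ∀ N : ℕ, N₀ ≤ N → ∀ z w : ℕ, w₀ ≤ w → 3 ≤ z → z ≤ w ^ 2 →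
    (w : ℝ) ≤ Real.log N ^ E → ∀ q : ℕ, w ≤ q → (q : ℝ) ≤ Real.log N ^ E → ∀ c : ℤ, IsCoprime c (q : ℤ) →
    ∀ α : ℝ, |α - c / q| ≤ 1 / (q : ℝ) ^ 2 →
    ‖∑ n ∈ Icc 1 N, ((lamz z n : ℝ) : ℂ) * ee ((n : ℝ) * α)‖ ≤ 1 / 4 * (N / √(w : ℝ)) := by
  obtain ⟨K, hK, hVK⟩ := Vz_inv_log
  obtain ⟨w₁, hw₁⟩ := pow_log_le (4 * (4 * K * 49201)) 5
  refine ⟨w₁ + 3, fun E => ?_⟩
  obtain ⟨N₀, h0⟩ := ev_small E
  refine ⟨N₀ + 1, fun N hN z w hw hz hzw hwE q hwq hqE c hcop α hα => ?_⟩
  obtain ⟨hL1, hexp, hsum⟩ := h0 N (by omega)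
  obtain ⟨L, hLd⟩ : ∃ L, L = Real.log (N : ℝ) := ⟨_, rfl⟩
  rw [← hLd] at hL1 hexp hsum hwE hqE
  have hN1 : 1 ≤ N := by omega
  have hNr : (1 : ℝ) ≤ N := by exact_mod_cast hN1
  have hN0 : (0 : ℝ) < N := by linarith
  have hw3 : (3 : ℝ) ≤ w := by exact_mod_cast (by omega : 3 ≤ w)
  have hw0 : (0 : ℝ) < w := by linarith
  have hz3 : (3 : ℝ) ≤ z := by exact_mod_cast hz
  have hwq' : (w : ℝ) ≤ q := by exact_mod_cast hwq
  have hq0 : (0 : ℝ) < q := by linarith
  have hq1 : 1 ≤ q := by omega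
  have hLE0 : 0 < L ^ E := by positivity
  obtain ⟨l, hl⟩ : ∃ l, l = 1 + Real.log (w : ℝ) := ⟨_, rfl⟩
  have hlw0 : 0 ≤ Real.log (w : ℝ) := Real.log_nonneg (by linarith)
  have hl1 : 1 ≤ l := by linarith
  have hlogw : Real.log (w : ℝ) ≤ E * Real.log L := by
    have h1 := Real.log_le_log hw0 hwE
    rwa [Real.log_pow] at h1
  have hlogq : Real.log (q : ℝ) ≤ E * Real.log L := by
    have h1 := Real.log_le_log hq0 hqE
    rwa [Real.log_pow] at h1
  have hlogz : Real.log (z : ℝ) ≤ 2 * Real.log w := by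
    have h1 : (z : ℝ) ≤ (w : ℝ) ^ 2 := by exact_mod_cast hzw
    have h2 := Real.log_le_log (by linarith) h1
    rw [Real.log_pow] at h2
    exact_mod_cast h2
  have hlogz0 : 0 ≤ Real.log (z : ℝ) := Real.log_nonneg (by linarith)
  obtain ⟨r, hr⟩ : ∃ r : ℕ, r = ⌈8 * l⌉₊ := ⟨_, rfl⟩
  have hr1 : 8 * l ≤ r := by rw [hr]; exact Nat.le_ceil _
  have hr2 : (r : ℝ) ≤ 9 * l := by
    have h1 := (Nat.ceil_lt_add_one (show (0 : ℝ) ≤ 8 * l by positivity)).le
    rw [← hr] at h1
    linarith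
  have hV := hVK z hz
  have hV2 : (Vz z)⁻¹ ≤ 4 * K * l ^ 2 := by
    refine hV.trans ?_
    have h1 : Real.log (z : ℝ) ^ 2 ≤ (2 * l) ^ 2 := pow_le_pow_left₀ hlogz0 (by linarith) 2
    calc K * Real.log (z : ℝ) ^ 2 ≤ K * (2 * l) ^ 2 := mul_le_mul_of_nonneg_left h1 hK.le
      _ = _ := by ring
  have hV0 : 0 < (Vz z)⁻¹ := inv_pos.2 (Vz_pos z)
  -- the size of `D`
  have hDlog : Real.log (((z + 1) ^ r : ℕ) : ℝ) ≤ 27 * l ^ 2 := by
    push_cast
    rw [Real.log_pow]
    have h1 : ((z : ℝ) + 1) ≤ (w : ℝ) ^ 3 := by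
      have h2 : (z : ℝ) ≤ (w : ℝ) ^ 2 := by exact_mod_cast hzw
      nlinarith [sq_nonneg (w : ℝ)]
    have h2 := Real.log_le_log (by linarith) h1
    rw [Real.log_pow] at h2
    push_cast at h2
    have h3 : Real.log ((z : ℝ) + 1) ≤ 3 * l := by linarith
    calc (r : ℝ) * Real.log ((z : ℝ) + 1) ≤ (9 * l) * (3 * l) := by
          apply mul_le_mul hr2 h3 (Real.log_nonneg (by linarith)) (by positivity)
      _ = _ := by ring
  have hDpos : 0 < (z + 1) ^ r := by positivity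
  have hD1 : (0 : ℝ) < (((z + 1) ^ r : ℕ) : ℝ) := by exact_mod_cast hDpos
  have hD : (((z + 1) ^ r : ℕ) : ℝ) ≤ √(N : ℝ) := by
    refine le_trans ?_ hexp
    rw [← Real.log_le_iff_le_exp hD1]
    refine hDlog.trans ?_
    apply mul_le_mul_of_nonneg_left _ (by norm_num)
    apply pow_le_pow_left₀ (by linarith)
    linarith
  have hDlog2 : (Nat.log 2 ((z + 1) ^ r) : ℝ) + 1 ≤ 41 * l ^ 2 := by
    have h4 : (2 : ℝ) ^ Nat.log 2 ((z + 1) ^ r) ≤ (((z + 1) ^ r : ℕ) : ℝ) := by
      exact_mod_cast Nat.pow_log_le_self 2 hDpos.ne'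
    have h6 := Real.log_le_log (by positivity) h4
    rw [Real.log_pow] at h6
    have h7 := Real.log_two_gt_d9
    have h8 : (0 : ℝ) ≤ Nat.log 2 ((z + 1) ^ r) := Nat.cast_nonneg _
    have h9 : (Nat.log 2 ((z + 1) ^ r) : ℝ) ≤ 40 * l ^ 2 := by
      have h10 : (Nat.log 2 ((z + 1) ^ r) : ℝ) * 0.69 ≤ 27 * l ^ 2 := by
        refine le_trans ?_ (h6.trans hDlog)
        exact mul_le_mul_of_nonneg_left (by linarith) h8
      nlinarith [sq_nonneg l]
    have h10 : 1 ≤ l ^ 2 := one_le_pow₀ hl1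
    linarith
  -- the terms
  have hterm : ((N : ℝ) / q + (((z + 1) ^ r : ℕ) : ℝ) + q) * (1 + Real.log q) ≤ 2 * (N * l / w) := by
    have hlq0 : 0 ≤ Real.log (q : ℝ) := Real.log_nonneg (by linarith)
    have h1 : (N : ℝ) / q * (1 + Real.log q) ≤ N * l / w := by
      -- `(1 + log q) / q` decreases
      have h2 : (1 + Real.log q) / q ≤ (1 + Real.log w) / w := by
        rw [div_le_div_iff₀ hq0 hw0]
        have h3 : Real.log q - Real.log w ≤ q / w - 1 := by
          rw [← Real.log_div hq0.ne' hw0.ne']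
          exact Real.log_le_sub_one_of_pos (by positivity)
        have h4 : (Real.log q - Real.log w) * w ≤ q - w := by
          calc (Real.log q - Real.log w) * w ≤ (q / w - 1) * w := mul_le_mul_of_nonneg_right h3 hw0.le
            _ = q - w := by field_simp
        have h5 : 0 ≤ (q - (w : ℝ)) * Real.log w := mul_nonneg (by linarith) hlw0
        nlinarith
      calc (N : ℝ) / q * (1 + Real.log q) = N * ((1 + Real.log q) / q) := by ring
        _ ≤ N * ((1 + Real.log w) / w) := mul_le_mul_of_nonneg_left h2 hN0.le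
        _ = _ := by rw [hl]; ring
    have h2 : ((((z + 1) ^ r : ℕ) : ℝ) + q) * (1 + Real.log q) ≤ N * l / w := by
      have h3 : ((((z + 1) ^ r : ℕ) : ℝ) + q) * (1 + Real.log q) ≤ (√(N : ℝ) + L ^ E) * (1 + E * Real.log L) :=
        mul_le_mul (add_le_add hD hqE) (by linarith) (by linarith) (by positivity)
      refine h3.trans ?_
      rw [le_div_iff₀ hw0]
      have h4 : 0 ≤ (√(N : ℝ) + L ^ E) * (1 + E * Real.log L) := by
        apply mul_nonneg (by positivity)
        linarith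
      calc (√(N : ℝ) + L ^ E) * (1 + E * Real.log L) * w ≤ (√(N : ℝ) + L ^ E) * (1 + E * Real.log L) * L ^ E :=
            mul_le_mul_of_nonneg_left hwE h4
        _ ≤ N := hsum
        _ ≤ N * l := le_mul_of_one_le_right hN0.le hl1
    calc ((N : ℝ) / q + (((z + 1) ^ r : ℕ) : ℝ) + q) * (1 + Real.log q) =
          (N : ℝ) / q * (1 + Real.log q) + ((((z + 1) ^ r : ℕ) : ℝ) + q) * (1 + Real.log q) := by ring
      _ ≤ _ := by linarith
  have herr : Real.exp (3 * (1 + Real.log z) - r) ≤ l / w := by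
    have h1 : 3 * (1 + Real.log z) - r ≤ -Real.log w := by linarith
    calc Real.exp (3 * (1 + Real.log z) - r) ≤ Real.exp (-Real.log w) := Real.exp_le_exp.2 h1
      _ = 1 / w := by rw [Real.exp_neg, Real.exp_log hw0, one_div]
      _ ≤ l / w := div_le_div_of_nonneg_right hl1 hw0.le
  have hfin := minor_gen N hN1 z r q hq1 c hcop α hα
  refine hfin.trans ?_
  have h5 := hw₁ w (by omega)
  rw [← hl] at h5
  have hsw : 0 < √(w : ℝ) := Real.sqrt_pos.2 hw0
  have hmain : (N : ℝ) * Real.exp (3 * (1 + Real.log z) - r) +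
      600 * ((Nat.log 2 ((z + 1) ^ r) : ℝ) + 1) * ((N : ℝ) / q + (((z + 1) ^ r : ℕ) : ℝ) + q) * (1 + Real.log q) ≤
      49201 * l ^ 3 * (N / w) := by
    have h6 : (N : ℝ) * Real.exp (3 * (1 + Real.log z) - r) ≤ l ^ 3 * (N / w) := by
      calc (N : ℝ) * Real.exp (3 * (1 + Real.log z) - r) ≤ N * (l / w) := mul_le_mul_of_nonneg_left herr hN0.le
        _ = l * (N / w) := by ring
        _ ≤ l ^ 3 * (N / w) := by
            apply mul_le_mul_of_nonneg_right _ (by positivity)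
            exact le_self_pow₀ hl1 (by norm_num)
    have h7 : 600 * ((Nat.log 2 ((z + 1) ^ r) : ℝ) + 1) * ((N : ℝ) / q + (((z + 1) ^ r : ℕ) : ℝ) + q) * (1 + Real.log q) ≤
        49200 * l ^ 3 * (N / w) := by
      calc 600 * ((Nat.log 2 ((z + 1) ^ r) : ℝ) + 1) * ((N : ℝ) / q + (((z + 1) ^ r : ℕ) : ℝ) + q) * (1 + Real.log q) =
            (600 * ((Nat.log 2 ((z + 1) ^ r) : ℝ) + 1)) * (((N : ℝ) / q + (((z + 1) ^ r : ℕ) : ℝ) + q) * (1 + Real.log q)) := by ring
        _ ≤ (600 * (41 * l ^ 2)) * (2 * (N * l / w)) := by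
            apply mul_le_mul _ hterm _ (by positivity)
            · linarith
            · have hlq0 : 0 ≤ Real.log (q : ℝ) := Real.log_nonneg (by linarith)
              positivity
        _ = _ := by ring
    calc _ ≤ l ^ 3 * (N / w) + 49200 * l ^ 3 * (N / w) := add_le_add h6 h7
      _ = _ := by ring
  calc (Vz z)⁻¹ * ((N : ℝ) * Real.exp (3 * (1 + Real.log z) - r) +
        600 * (Nat.log 2 ((z + 1) ^ r) + 1 : ℝ) * ((N : ℝ) / q + ((z + 1) ^ r : ℕ) + q) * (1 + Real.log q))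
      ≤ (4 * K * l ^ 2) * (49201 * l ^ 3 * (N / w)) := by
        apply mul_le_mul hV2 hmain _ (by positivity)
        have hlq0 : 0 ≤ Real.log (q : ℝ) := Real.log_nonneg (by linarith)
        positivity
    _ = 1 / 4 * ((4 * (4 * K * 49201)) * l ^ 5) * (N / w) := by ring
    _ ≤ 1 / 4 * √(w : ℝ) * (N / w) := by
        apply mul_le_mul_of_nonneg_right _ (by positivity)
        linarith
    _ = 1 / 4 * (N / √(w : ℝ)) := by
        have h8 : (w : ℝ) = √(w : ℝ) * √(w : ℝ) := (Real.mul_self_sqrt hw0.le).symm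
        rw [mul_assoc]
        congr 1
        rw [h8]
        rw [Real.sqrt_mul_self hsw.le]
        field_simp

end Pool.Agent.E8helper80.FL
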