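import Pool.Agent.E8helper80.FL.Sup
import Pool.Agent.H373R2.T7.BilE
import Pool.Agent.H373R2.T7.Telesc

set_option autoImplicit false

/-! One moving shift: replacing one function by another in the first moment. -/

namespace Pool.Agent.E8helper80.FL
open Finset
open Pool.Agent.H807R2.Dav
open Pool.Agent.H373R2.T7

/-- extension by zero to the integers -/
noncomputable def fI (f : ℕ → ℝ) (k : ℤ) : ℝ := if 1 ≤ k then f k.toNat else 0

lemma fI_abs_le (f : ℕ → ℝ) (V : ℝ) (hV0 : 0 ≤ V) (H : ℕ) (hf : ∀ n ∈ Icc 1 H, |f n| ≤ V) (k : ℤ) (hk : k ≤ H) : |fI f k| ≤ V := by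
  unfold fI
  split_ifs with h
  · apply hf
    rw [mem_Icc]
    omega
  · rw [abs_zero]; exact hV0

/-- a family of shifts of nearly minimal additive energy -/
def Fam (p B : ℕ) (C : ℝ) (N x : ℕ) (s : ℕ → ℤ) : Prop :=
  1 ≤ x ∧ (∀ m ∈ Icc 1 x, |s m| ≤ B * N) ∧ (energy p x s : ℝ) * N ≤ C * (x : ℝ) ^ (2 * p)

theorem one_coord (p B : ℕ) (C : ℝ) (hC : 0 ≤ C) (N : ℕ) (hN : 1 ≤ N) (x : ℕ) (s : ℕ → ℤ) (hF : Fam p B C N x s)
    (A : ℕ) (hA : A ≤ N) (f : ℕ → ℝ) (δ V : ℝ)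
    (hδ : ∀ α : ℝ, ‖∑ n ∈ Icc 1 (2 * ((B + 1) * N)), ((f n : ℝ) : ℂ) * ee ((n : ℝ) * α)‖ ≤ δ * N)
    (hV0 : 0 ≤ V) (hV : ∀ n ∈ Icc 1 (2 * ((B + 1) * N)), |f n| ≤ V) (η : ℝ) (hη : 0 < η) :
    ∀ K : ℝ, 0 < K → ∀ G : ℕ → ℝ, (∀ n ∈ Icc 1 A, |G n| ≤ K) →
      ∑ v ∈ Icc 1 x, |∑ n ∈ Icc 1 A, G n * fI f (n + s v)| ≤
        K * (((4 * p + 5) * (B + 1) * C * δ / η ^ (2 * p) + 2 * (B + 1) * η * V) * N * x) := by
  intro K hK G hG
  obtain ⟨hx, hs, hE⟩ := hF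
  have hN0 : (0 : ℝ) < N := by exact_mod_cast hN
  have hx0 : (0 : ℝ) < x := by exact_mod_cast hx
  obtain ⟨B1, hB1⟩ : ∃ B1 : ℕ, B1 = B + 1 := ⟨_, rfl⟩
  have hB1r : (B1 : ℝ) = B + 1 := by rw [hB1]; push_cast; ring
  rw [← hB1] at hδ hV
  rw [← hB1r]
  have hB1pos : 1 ≤ B1 := by omega
  have hB1p : (1 : ℝ) ≤ B1 := by exact_mod_cast hB1pos
  obtain ⟨H, hH⟩ : ∃ H : ℕ, H = 2 * (B1 * N) := ⟨_, rfl⟩
  rw [← hH] at hδ hV
  obtain ⟨M, hM⟩ : ∃ M : ℕ, M = (4 * p + 5) * (B1 * N) := ⟨_, rfl⟩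
  have hBN : B * N ≤ B1 * N := Nat.mul_le_mul_right _ (by omega)
  have hB1N : 1 ≤ B1 * N := Nat.mul_pos hB1pos (by omega)
  have hNB : N ≤ B1 * N := Nat.le_mul_of_pos_left _ hB1pos
  have hM5 : 5 * (B1 * N) ≤ M := by
    rw [hM]; exact Nat.mul_le_mul_right _ (by omega)
  have hM1 : 1 ≤ M := by omega
  have hHM : H ≤ M := by omega
  have hHr : (H : ℝ) = 2 * (B1 * N) := by rw [hH]; push_cast; ring
  have hMr : (M : ℝ) = (4 * p + 5) * (B1 * N) := by rw [hM]; push_cast; ring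
  have hBNi : (B : ℤ) * N + N = B1 * N := by rw [hB1]; push_cast; ring
  have hHi : (H : ℤ) = 2 * (B1 * N) := by rw [hH]; push_cast; ring
  have hcond : ∀ a ∈ Icc 1 A, ∀ m ∈ Icc 1 x, ∀ n ∈ Icc 1 H, |(a : ℤ) + s m - n| < M := by
    intro a ha m hm n hn
    have h4 := abs_le.1 (hs m hm)
    rw [mem_Icc] at ha hn
    have h5 : (a : ℤ) ≤ N := by exact_mod_cast ha.2.trans hA
    have h6 : (n : ℤ) ≤ 2 * (B1 * N) := by exact_mod_cast (hn.2.trans hH.le)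
    have h7 : (5 : ℤ) * (B1 * N) ≤ M := by exact_mod_cast hM5
    have h8 : (B : ℤ) * N ≤ B1 * N := by exact_mod_cast hBN
    have h9 : (1 : ℤ) ≤ B1 * N := by exact_mod_cast hB1N
    have h12 : (N : ℤ) ≤ B1 * N := by exact_mod_cast hNB
    have h10 : (0 : ℤ) ≤ a := by positivity
    have h11 : (0 : ℤ) ≤ n := by positivity
    rw [abs_lt]
    constructor <;> linarith [h4.1, h4.2]
  have hAM : A ≤ M := hA.trans (by omega)
  have hmomE := moment_energy p x s M (B * N) hM1 (fun m hm => by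
    have := hs m hm
    push_cast
    exact this) (by
    have h4 : 2 * p * (B * N) ≤ 2 * p * (B1 * N) := Nat.mul_le_mul_left _ hBN
    have h5 : 2 * p * (B1 * N) < (4 * p + 5) * (B1 * N) := Nat.mul_lt_mul_of_pos_right (by omega) hB1N
    omega)
  have hmom : ∑ t ∈ range M, (‖∑ m ∈ Icc 1 x, ee ((t : ℝ) * ((s m : ℝ) / M))‖ / x) ^ (2 * p) ≤ (4 * p + 5) * B1 * C := by
    have h2 : ∑ t ∈ range M, (‖∑ m ∈ Icc 1 x, ee ((t : ℝ) * ((s m : ℝ) / M))‖ / x) ^ (2 * p) =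
        (M * energy p x s) / (x : ℝ) ^ (2 * p) := by
      rw [← hmomE, sum_div]
      exact sum_congr rfl fun t _ => div_pow _ _ _
    rw [h2, div_le_iff₀ (by positivity), hMr]
    calc (4 * (p : ℝ) + 5) * (B1 * N) * energy p x s = (4 * p + 5) * B1 * (energy p x s * N) := by ring
      _ ≤ (4 * p + 5) * B1 * (C * (x : ℝ) ^ (2 * p)) := mul_le_mul_of_nonneg_left hE (by positivity)
      _ = _ := by ring
  have hδ0 : 0 ≤ δ * N := (norm_nonneg _).trans (hδ 0)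
  have hδ1 : 0 ≤ δ := by
    by_contra h
    push Not at h
    have : δ * N < 0 := mul_neg_of_neg_of_pos h hN0
    linarith
  have hfs : ∑ n ∈ Icc 1 H, ‖((f n : ℝ) : ℂ)‖ ^ 2 ≤ H * V ^ 2 := by
    have h4 : ∀ n ∈ Icc 1 H, ‖((f n : ℝ) : ℂ)‖ ^ 2 ≤ V ^ 2 := fun n hn => by
      apply pow_le_pow_left₀ (norm_nonneg _)
      rw [Complex.norm_real, Real.norm_eq_abs]
      exact hV n hn
    refine (sum_le_sum h4).trans ?_
    rw [sum_const, Nat.card_Icc, nsmul_eq_mul]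
    simp
  have hbil : ∀ G c : ℕ → ℂ, (∀ a, ‖G a‖ ≤ 1) → (∀ m, ‖c m‖ ≤ 1) →
      ‖∑ a ∈ Icc 1 A, ∑ m ∈ Icc 1 x, G a * c m * ((fI f (a + s m) : ℝ) : ℂ)‖ ≤
        ((4 * p + 5) * B1 * C * δ / η ^ (2 * p) + 2 * B1 * η * V) * N * x := by
    intro G c hG hc
    have key := bil_main A H x M hM1 (fun n => ((f n : ℝ) : ℂ)) G c s (δ * N) η p ((4 * p + 5) * B1 * C) (H * V ^ 2)
      hcond hAM hHM hx hδ hG hc hmom hfs hη
    have heq : ∑ a ∈ Icc 1 A, ∑ m ∈ Icc 1 x, G a * c m * fz (fun n => ((f n : ℝ) : ℂ)) H (a + s m) =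
        ∑ a ∈ Icc 1 A, ∑ m ∈ Icc 1 x, G a * c m * ((fI f (a + s m) : ℝ) : ℂ) := by
      apply sum_congr rfl
      intro a ha
      apply sum_congr rfl
      intro m hm
      congr 1
      unfold fz fI
      have h4 := abs_le.1 (hs m hm)
      rw [mem_Icc] at ha
      have h5 : (a : ℤ) ≤ N := by exact_mod_cast ha.2.trans hA
      have h9 : (1 : ℤ) ≤ B1 * N := by exact_mod_cast hB1N
      by_cases h6 : 1 ≤ (a : ℤ) + s m
      · rw [if_pos h6, if_pos ⟨h6, by linarith [h4.2]⟩]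
      · rw [if_neg h6, if_neg (fun h => h6 h.1)]
        simp
    rw [heq] at key
    refine key.trans ?_
    have hA0 : (0 : ℝ) ≤ A := Nat.cast_nonneg _
    have hAr : (A : ℝ) ≤ N := by exact_mod_cast hA
    have hAM' : (A : ℝ) ≤ M := by exact_mod_cast hAM
    have hM0 : (0 : ℝ) < M := by exact_mod_cast hM1
    have t1 : (4 * (p : ℝ) + 5) * B1 * C / η ^ (2 * p) * (δ * N) * A * x / M ≤
        (4 * p + 5) * B1 * C * δ / η ^ (2 * p) * N * x := by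
      rw [div_le_iff₀ hM0]
      have h6 : 0 ≤ (4 * (p : ℝ) + 5) * B1 * C * δ / η ^ (2 * p) * N * x := by positivity
      calc (4 * (p : ℝ) + 5) * B1 * C / η ^ (2 * p) * (δ * N) * A * x =
            ((4 * (p : ℝ) + 5) * B1 * C * δ / η ^ (2 * p) * N * x) * A := by ring
        _ ≤ _ := mul_le_mul_of_nonneg_left hAM' h6
    have t2 : η * x * Real.sqrt (H * V ^ 2 * A) ≤ 2 * B1 * η * V * N * x := by
      have h4 : Real.sqrt (H * V ^ 2 * A) ≤ 2 * B1 * V * N := by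
        rw [Real.sqrt_le_left (by positivity), hHr]
        have h5 : 2 * ((B1 : ℝ) * N) * V ^ 2 * A ≤ 2 * (B1 * N) * V ^ 2 * N := mul_le_mul_of_nonneg_left hAr (by positivity)
        have h6 : 0 ≤ (B1 : ℝ) * V ^ 2 * (N : ℝ) ^ 2 := by positivity
        have h7 : (B1 : ℝ) * V ^ 2 * (N : ℝ) ^ 2 ≤ B1 * (B1 * V ^ 2 * (N : ℝ) ^ 2) := le_mul_of_one_le_left h6 hB1p
        nlinarith
      calc η * x * Real.sqrt (H * V ^ 2 * A) ≤ η * x * (2 * B1 * V * N) :=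
            mul_le_mul_of_nonneg_left h4 (by positivity)
        _ = _ := by ring
    calc _ ≤ (4 * (p : ℝ) + 5) * B1 * C * δ / η ^ (2 * p) * N * x + 2 * B1 * η * V * N * x := add_le_add t1 t2
      _ = _ := by ring
  exact l1_of_bil A x (fun a m => fI f (a + s m)) _ K hK hbil G hG

/-- several moving shifts: replacing a function by another one -/
theorem swap {k : ℕ} (p B : ℕ) (C : ℝ) (hC : 0 ≤ C) (N : ℕ) (hN : 1 ≤ N) (x : Fin k → ℕ) (s : Fin k → ℕ → ℤ)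
    (hF : ∀ i, Fam p B C N (x i) (s i)) (A : ℕ) (hA : A ≤ N) (f g : ℕ → ℝ) (δ V : ℝ)
    (hδ : ∀ α : ℝ, ‖∑ n ∈ Icc 1 (2 * ((B + 1) * N)), ((f n - g n : ℝ) : ℂ) * ee ((n : ℝ) * α)‖ ≤ δ * N)
    (hV1 : 1 ≤ V) (hf : ∀ n ∈ Icc 1 (2 * ((B + 1) * N)), 0 ≤ f n ∧ f n ≤ V)
    (hg : ∀ n ∈ Icc 1 (2 * ((B + 1) * N)), 0 ≤ g n ∧ g n ≤ V) (η : ℝ) (hη : 0 < η)
    (G : ℕ → ℝ) (hG : ∀ n ∈ Icc 1 A, |G n| ≤ 1) :
    ∑ m ∈ Fintype.piFinset (fun i => Icc 1 (x i)), |∑ n ∈ Icc 1 A, G n * (∏ i, fI f (n + s i (m i)) - ∏ i, fI g (n + s i (m i)))| ≤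
      k * V ^ k * ((4 * p + 5) * (B + 1) * C * δ / η ^ (2 * p) + 2 * (B + 1) * η * V) * N * ∏ i, (x i : ℝ) := by
  have hN0 : (0 : ℝ) < N := by exact_mod_cast hN
  have hδ0 : 0 ≤ δ * N := (norm_nonneg _).trans (hδ 0)
  have hδ1 : 0 ≤ δ := by
    by_contra h
    push Not at h
    have : δ * N < 0 := mul_neg_of_neg_of_pos h hN0
    linarith
  have hsz : ∀ i, ∀ n ∈ Icc 1 A, ∀ v ∈ Icc 1 (x i), (n : ℤ) + s i v ≤ ((2 * ((B + 1) * N) : ℕ) : ℤ) := by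
    intro i n hn v hv
    have h1 := (abs_le.1 ((hF i).2.1 v hv)).2
    rw [mem_Icc] at hn
    have h2 : (n : ℤ) ≤ N := by exact_mod_cast hn.2.trans hA
    have h3 : (0 : ℤ) ≤ (B : ℤ) * N := by positivity
    push_cast
    linarith
  have hV0 : 0 ≤ V := by linarith
  have habs : ∀ h : ℕ → ℝ, (∀ n ∈ Icc 1 (2 * ((B + 1) * N)), 0 ≤ h n ∧ h n ≤ V) → ∀ i, ∀ n ∈ Icc 1 A, ∀ v ∈ Icc 1 (x i),
      |fI h (n + s i v)| ≤ V := fun h hh i n hn v hv =>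
    fI_abs_le h V hV0 (2 * ((B + 1) * N)) (fun n hn => by rw [abs_of_nonneg (hh n hn).1]; exact (hh n hn).2) _ (hsz i n hn v hv)
  have key := tele A x (fun i => (hF i).1) (fun i n v => fI f (n + s i v)) (fun i n v => fI g (n + s i v)) V
    (((4 * p + 5) * (B + 1) * C * δ / η ^ (2 * p) + 2 * (B + 1) * η * V) * N) hV1 (by positivity)
    (habs f hf) (habs g hg) (fun i K hK G hG => by
      have h1 := one_coord p B C hC N hN (x i) (s i) (hF i) A hA (fun n => f n - g n) δ V hδ hV0 (fun n hn => by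
        have a1 := hf n hn
        have a2 := hg n hn
        rw [abs_le]
        constructor <;> linarith [a1.1, a1.2, a2.1, a2.2]) η hη K hK G hG
      refine le_trans (le_of_eq ?_) h1
      apply sum_congr rfl
      intro v _
      congr 1
      apply sum_congr rfl
      intro n _
      congr 1
      unfold fI
      split_ifs <;> ring) univ 1 one_pos (fun n _ => G n) (fun n hn m _ => hG n hn) (fun n m v i _ => rfl)
  refine key.trans (le_of_eq ?_)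
  rw [card_univ, Fintype.card_fin]
  ring

end Pool.Agent.E8helper80.FL
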