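import Pool.Agent.E8helper80.FL.Lam

set_option autoImplicit false

/-! Almost all shifts, all initial segments: from the von Mangoldt function to a fixed sieve model. -/

namespace Pool.Agent.E8helper80.FL
open Finset
open Pool.Agent.H807R2.Dav
open Pool.Agent.H373R2.T7

/-- the difference of the two sums up to `X` -/
noncomputable def Df {k : ℕ} (z : ℕ) (s : Fin k → ℕ → ℤ) (G : ℕ → ℝ) (m : Fin k → ℕ) (X : ℕ) : ℝ :=
  ∑ n ∈ Icc 1 X, G n * (∏ i, fI (fun n => ArithmeticFunction.vonMangoldt n) (n + s i (m i)) - ∏ i, fI (lamz z) (n + s i (m i)))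

lemma fI_nonneg (f : ℕ → ℝ) (hf : ∀ n, 0 ≤ f n) (k : ℤ) : 0 ≤ fI f k := by
  unfold fI
  split_ifs
  · exact hf _
  · exact le_rfl

lemma fI_lamz_le (z : ℕ) (k : ℤ) : fI (lamz z) k ≤ (Vz z)⁻¹ := by
  unfold fI
  split_ifs
  · exact lamz_le_inv _ _
  · exact (inv_pos.2 (Vz_pos z)).le

lemma prod_lamz_le {k : ℕ} (z : ℕ) (s : Fin k → ℕ → ℤ) (m : Fin k → ℕ) (n : ℕ) :
    ∏ i, fI (lamz z) (n + s i (m i)) ≤ ((Vz z)⁻¹) ^ k := by
  calc ∏ i, fI (lamz z) (n + s i (m i)) ≤ ∏ _i : Fin k, (Vz z)⁻¹ :=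
        prod_le_prod (fun i _ => fI_nonneg _ (lamz_nonneg z) _) (fun i _ => fI_lamz_le z _)
    _ = _ := by rw [prod_const, card_univ, Fintype.card_fin]

/-- between two grid points -/
lemma Df_between {k : ℕ} (z : ℕ) (s : Fin k → ℕ → ℤ) (G : ℕ → ℝ) (m : Fin k → ℕ) (X1 X X2 Y : ℕ) (h1 : X1 ≤ X) (h2 : X ≤ X2)
    (hY : X2 ≤ X1 + Y) (hG : ∀ n ∈ Icc 1 X2, |G n| ≤ 1) :
    |Df z s G m X| ≤ |Df z s G m X1| + |Df z s (fun _ => 1) m X1| + |Df z s (fun _ => 1) m X2| + 2 * (Y * ((Vz z)⁻¹) ^ k) := by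
  obtain ⟨P, hP⟩ : ∃ P : ℕ → ℝ, P = fun n : ℕ => ∏ i, fI (fun n => ArithmeticFunction.vonMangoldt n) ((n : ℤ) + s i (m i)) := ⟨_, rfl⟩
  obtain ⟨R, hR⟩ : ∃ R : ℕ → ℝ, R = fun n : ℕ => ∏ i, fI (lamz z) ((n : ℤ) + s i (m i)) := ⟨_, rfl⟩
  have hP0 : ∀ n, 0 ≤ P n := fun n => by
    rw [hP]; exact prod_nonneg fun i _ => fI_nonneg _ (fun _ => ArithmeticFunction.vonMangoldt_nonneg) _
  have hR0 : ∀ n, 0 ≤ R n := fun n => by rw [hR]; exact prod_nonneg fun i _ => fI_nonneg _ (lamz_nonneg z) _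
  have hR1 : ∀ n, R n ≤ ((Vz z)⁻¹) ^ k := fun n => by rw [hR]; exact prod_lamz_le z s m n
  have hD : ∀ (G : ℕ → ℝ) (X : ℕ), Df z s G m X = ∑ n ∈ Icc 1 X, G n * (P n - R n) := by
    intro G X
    rw [hP, hR]
    rfl
  have hsp : ∀ (F : ℕ → ℝ) (a b : ℕ), a ≤ b → ∑ n ∈ Icc 1 b, F n = ∑ n ∈ Icc 1 a, F n + ∑ n ∈ Ioc a b, F n := by
    intro F a b hab
    have e1 : Icc 1 b = Icc 1 a ∪ Ioc a b := by
      ext n
      rw [mem_union, mem_Icc, mem_Icc, mem_Ioc]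
      omega
    rw [e1, sum_union]
    rw [disjoint_left]
    intro n hn hn'
    rw [mem_Icc] at hn
    rw [mem_Ioc] at hn'
    omega
  have hRs : ∀ a b : ℕ, b ≤ a + Y → ∑ n ∈ Ioc a b, R n ≤ Y * ((Vz z)⁻¹) ^ k := by
    intro a b hab
    refine (sum_le_sum fun n _ => hR1 n).trans ?_
    rw [sum_const, Nat.card_Ioc, nsmul_eq_mul]
    apply mul_le_mul_of_nonneg_right _ (pow_nonneg (inv_pos.2 (Vz_pos z)).le _)
    exact_mod_cast (by omega : b - a ≤ Y)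
  -- the sum of `P` between the grid points
  have hPs : ∑ n ∈ Ioc X1 X2, P n ≤ |Df z s (fun _ => 1) m X1| + |Df z s (fun _ => 1) m X2| + Y * ((Vz z)⁻¹) ^ k := by
    have e1 : ∑ n ∈ Ioc X1 X2, P n = Df z s (fun _ => 1) m X2 - Df z s (fun _ => 1) m X1 + ∑ n ∈ Ioc X1 X2, R n := by
      rw [hD, hD, hsp _ X1 X2 (h1.trans h2)]
      simp only [one_mul, sum_sub_distrib]
      ring
    rw [e1]
    have e2 := hRs X1 X2 hY
    have e3 := le_abs_self (Df z s (fun _ => 1) m X2)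
    have e4 := neg_abs_le (Df z s (fun _ => 1) m X1)
    linarith
  have e5 : |∑ n ∈ Ioc X1 X, G n * (P n - R n)| ≤ ∑ n ∈ Ioc X1 X2, P n + Y * ((Vz z)⁻¹) ^ k := by
    refine (abs_sum_le_sum_abs _ _).trans ?_
    have e6 : ∀ n ∈ Ioc X1 X, |G n * (P n - R n)| ≤ P n + R n := by
      intro n hn
      rw [mem_Ioc] at hn
      rw [abs_mul]
      have e7 := hG n (by rw [mem_Icc]; omega)
      have e8 : |P n - R n| ≤ P n + R n := by
        have a1 := hP0 n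
        have a2 := hR0 n
        rw [abs_le]
        constructor <;> linarith
      calc |G n| * |P n - R n| ≤ 1 * |P n - R n| := mul_le_mul_of_nonneg_right e7 (abs_nonneg _)
        _ ≤ P n + R n := by rw [one_mul]; exact e8
    refine (sum_le_sum e6).trans ?_
    rw [sum_add_distrib]
    have e9 : ∑ n ∈ Ioc X1 X, P n ≤ ∑ n ∈ Ioc X1 X2, P n := by
      apply sum_le_sum_of_subset_of_nonneg
      · intro n hn
        rw [mem_Ioc] at hn ⊢
        omega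
      · intro n _ _
        exact hP0 n
    have e10 := hRs X1 X (by omega)
    linarith
  rw [hD G X, hsp _ X1 X h1, ← hD G X1]
  have e11 := abs_add_le (Df z s G m X1) (∑ n ∈ Ioc X1 X, G n * (P n - R n))
  linarith

open Classical in
/-- **almost all shifts, all initial segments** -/
theorem seg (k p B : ℕ) (C : ℝ) (hC : 0 ≤ C) (ε : ℝ) (hε : 0 < ε) : ∃ z₁ : ℕ, ∀ z : ℕ, z₁ ≤ z → ∃ N₀ : ℕ, ∀ N : ℕ, N₀ ≤ N →
    ∀ (x : Fin k → ℕ) (s : Fin k → ℕ → ℤ), (∀ i, Fam p B C N (x i) (s i)) →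
    ∀ G : ℕ → ℝ, (∀ n ∈ Icc 1 N, |G n| ≤ 1) →
    (((Fintype.piFinset (fun i => Icc 1 (x i))).filter (fun m : Fin k → ℕ => ∃ X : ℕ, X ≤ N ∧ ε * N < |Df z s G m X|)).card : ℝ) ≤
      ε * ∏ i, (x i : ℝ) := by
  obtain ⟨K0, hK0, hVK0⟩ := Vz_inv_log
  obtain ⟨θ, hθ⟩ : ∃ θ : ℝ, θ = 1 / (32 * ((p : ℝ) + 1)) := ⟨_, rfl⟩
  have hθ0 : 0 < θ := by rw [hθ]; positivity
  obtain ⟨z₂, hz₂⟩ := lam_fixed k p B C hC
  obtain ⟨z₃, hz₃⟩ := pow_log_rpow ((32 / ε) * (8 / ε * K0 ^ k + 2) / ε) (2 * k) θ hθ0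
  refine ⟨z₂ + z₃ + 3, fun z hz => ?_⟩
  have hz0 : (0 : ℝ) < z := by exact_mod_cast (by omega : 0 < z)
  have hz3 : (3 : ℝ) ≤ z := by exact_mod_cast (by omega : 3 ≤ z)
  obtain ⟨W, hW⟩ : ∃ W : ℝ, W = ((Vz z)⁻¹) ^ k := ⟨_, rfl⟩
  have hW0 : 0 ≤ W := by rw [hW]; exact pow_nonneg (inv_pos.2 (Vz_pos z)).le _
  obtain ⟨l, hl⟩ : ∃ l, l = 1 + Real.log (z : ℝ) := ⟨_, rfl⟩
  have hl1 : 1 ≤ l := by
    have : 0 ≤ Real.log (z : ℝ) := Real.log_nonneg (by linarith)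
    linarith
  have hWl : W ≤ K0 ^ k * l ^ (2 * k) := by
    rw [hW]
    calc ((Vz z)⁻¹) ^ k ≤ (K0 * l ^ 2) ^ k := by
          apply pow_le_pow_left₀ (inv_pos.2 (Vz_pos z)).le
          refine (hVK0 z (by omega)).trans ?_
          apply mul_le_mul_of_nonneg_left _ hK0.le
          apply pow_le_pow_left₀ (Real.log_nonneg (by linarith))
          linarith
      _ = _ := by rw [mul_pow, ← pow_mul]
  -- the number of the blocks
  obtain ⟨J, hJd⟩ : ∃ J : ℕ, J = ⌈8 / ε * W⌉₊ + 1 := ⟨_, rfl⟩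
  have hJ1 : 1 ≤ J := by omega
  have hJ0 : (0 : ℝ) < J := by exact_mod_cast hJ1
  have hJa : 8 / ε * W ≤ J := by
    rw [hJd]
    push_cast
    have := Nat.le_ceil (8 / ε * W)
    linarith
  have hJb : (J : ℝ) ≤ 8 / ε * W + 2 := by
    rw [hJd]
    push_cast
    have := (Nat.ceil_lt_add_one (show 0 ≤ 8 / ε * W by positivity)).le
    linarith
  obtain ⟨N₁, h1⟩ := hz₂ z (by omega)
  refine ⟨N₁ + J + 1, fun N hN x s hF G hG => ?_⟩
  have hN1 : 1 ≤ N := by omega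
  have hN0 : (0 : ℝ) < N := by exact_mod_cast hN1
  have hprod : 0 ≤ ∏ i, (x i : ℝ) := prod_nonneg fun _ _ => Nat.cast_nonneg _
  obtain ⟨Y, hY⟩ : ∃ Y : ℕ, Y = N / J := ⟨_, rfl⟩
  have hY1 : 1 ≤ Y := by
    rw [hY]
    exact Nat.div_pos (by omega) (by omega)
  have hYr : (Y : ℝ) ≤ N / J := by rw [hY]; exact Nat.cast_div_le
  have hYN : 2 * (Y * W) ≤ ε / 4 * N := by
    have e1 : (Y : ℝ) * J ≤ N := by rw [le_div_iff₀ hJ0] at hYr; exact hYr
    have e2 : 8 / ε * W * Y ≤ J * Y := mul_le_mul_of_nonneg_right hJa (Nat.cast_nonneg _)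
    have e3 : 8 / ε * W * Y = (2 * (Y * W)) * (4 / ε) := by ring
    rw [e3] at e2
    have e4 : (2 * (Y * W)) * (4 / ε) ≤ N := by linarith
    rw [← le_div_iff₀ (by positivity)] at e4
    refine e4.trans (le_of_eq ?_)
    field_simp
  -- the two weights
  obtain ⟨Box, hBox⟩ : ∃ Box : Finset (Fin k → ℕ), Box = Fintype.piFinset (fun i => Icc 1 (x i)) := ⟨_, rfl⟩
  have hgrid : ∀ G : ℕ → ℝ, (∀ n ∈ Icc 1 N, |G n| ≤ 1) → ∀ X : ℕ, X ≤ N →
      ((Box.filter (fun m : Fin k → ℕ => ε / 4 * N < |Df z s G m X|)).card : ℝ) ≤ 4 / ε * (z : ℝ) ^ (-θ) * ∏ i, (x i : ℝ) := by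
    intro G hG X hX
    have e1 := h1 N (by omega) x s hF X hX G (fun n hn => hG n (by rw [mem_Icc] at hn ⊢; omega))
    rw [← hθ] at e1
    have e2 : ∑ m ∈ Box.filter (fun m : Fin k → ℕ => ε / 4 * N < |Df z s G m X|), (ε / 4 * N) ≤
        M1 x s X G (fun n => ArithmeticFunction.vonMangoldt n) (lamz z) := by
      unfold M1
      rw [← hBox]
      refine le_trans (sum_le_sum (g := fun m => |Df z s G m X|) ?_)
        (sum_le_sum_of_subset_of_nonneg (filter_subset _ _) (fun _ _ _ => abs_nonneg _))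
      intro m hm
      exact (mem_filter.1 hm).2.le
    rw [sum_const, nsmul_eq_mul] at e2
    have e3 := e2.trans e1
    rw [← le_div_iff₀ (by positivity)] at e3
    refine e3.trans (le_of_eq ?_)
    field_simp
  have hone : ∀ n ∈ Icc 1 N, |(fun _ : ℕ => (1 : ℝ)) n| ≤ 1 := fun n _ => by simp
  obtain ⟨bad, hbad⟩ : ∃ bad : (ℕ → ℝ) → ℕ → Finset (Fin k → ℕ), bad = fun G j => Box.filter (fun m : Fin k → ℕ =>
    ε / 4 * N < |Df z s G m (min (j * Y) N)|) := ⟨_, rfl⟩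
  have hsub : Box.filter (fun m : Fin k → ℕ => ∃ X : ℕ, X ≤ N ∧ ε * N < |Df z s G m X|) ⊆
      (range (2 * J + 2)).biUnion (fun j => bad G j ∪ bad (fun _ => 1) j) := by
    intro m hm
    rw [mem_filter] at hm
    obtain ⟨hm1, X, hX, hlt⟩ := hm
    have h2 : X / Y * Y ≤ X := Nat.div_mul_le_self X Y
    have h3 : X < X / Y * Y + Y := Nat.lt_div_mul_add (a := X) (show 0 < Y by omega)
    have hr : X / Y < 2 * J + 1 := by
      have h4 : X / Y ≤ N / Y := Nat.div_le_div_right hX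
      have h5 : N / Y < 2 * J + 1 := by
        rw [Nat.div_lt_iff_lt_mul (by omega)]
        have h6 : N < J * (Y + 1) := by
          rw [hY]
          exact Nat.lt_mul_div_succ N (show 0 < J by omega)
        nlinarith
      omega
    have key := Df_between z s G m (X / Y * Y) X (min ((X / Y + 1) * Y) N) Y h2 (by
      rw [le_min_iff]
      refine ⟨?_, hX⟩
      rw [add_mul, one_mul]
      omega) ((min_le_left _ _).trans (by rw [add_mul, one_mul])) (fun n hn => hG n (by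
        rw [mem_Icc] at hn ⊢
        exact ⟨hn.1, hn.2.trans (min_le_right _ _)⟩))
    rw [← hW] at key
    rw [mem_biUnion]
    have hmin : min (X / Y * Y) N = X / Y * Y := min_eq_left (h2.trans hX)
    by_cases c1 : ε / 4 * N < |Df z s G m (X / Y * Y)|
    · refine ⟨X / Y, mem_range.2 (by omega), mem_union_left _ ?_⟩
      rw [hbad, mem_filter, hmin]
      exact ⟨hm1, c1⟩
    by_cases c2 : ε / 4 * N < |Df z s (fun _ => 1) m (X / Y * Y)|
    · refine ⟨X / Y, mem_range.2 (by omega), mem_union_right _ ?_⟩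
      rw [hbad, mem_filter, hmin]
      exact ⟨hm1, c2⟩
    refine ⟨X / Y + 1, mem_range.2 (by omega), mem_union_right _ ?_⟩
    rw [hbad, mem_filter]
    refine ⟨hm1, ?_⟩
    push Not at c1 c2
    linarith
  rw [← hBox]
  refine (Nat.cast_le.2 (card_le_card hsub)).trans ?_
  refine (Nat.cast_le.2 card_biUnion_le).trans ?_
  rw [Nat.cast_sum]
  have hb : ∀ j ∈ range (2 * J + 2), (((bad G j ∪ bad (fun _ => 1) j).card : ℕ) : ℝ) ≤ 2 * (4 / ε * (z : ℝ) ^ (-θ) * ∏ i, (x i : ℝ)) := by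
    intro j _
    have e1 := hgrid G hG (min (j * Y) N) (min_le_right _ _)
    have e2 := hgrid (fun _ => 1) hone (min (j * Y) N) (min_le_right _ _)
    have e3 : (((bad G j ∪ bad (fun _ => 1) j).card : ℕ) : ℝ) ≤ ((bad G j).card : ℝ) + ((bad (fun _ => 1) j).card : ℝ) := by
      exact_mod_cast card_union_le _ _
    rw [hbad] at e3 ⊢
    linarith
  refine (sum_le_sum hb).trans ?_
  rw [sum_const, card_range, nsmul_eq_mul]
  push_cast
  have hzθ : (z : ℝ) ^ (-θ) * (z : ℝ) ^ θ = 1 := by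
    rw [← Real.rpow_add hz0, neg_add_cancel, Real.rpow_zero]
  have hzp : 0 < (z : ℝ) ^ (-θ) := Real.rpow_pos_of_pos hz0 _
  have h4 := hz₃ z (by omega)
  rw [← hl] at h4
  have h5 : (2 * (J : ℝ) + 2) * (2 * (4 / ε)) * (z : ℝ) ^ (-θ) ≤ ε := by
    have e1 : 2 * (J : ℝ) + 2 ≤ 2 * ((8 / ε * K0 ^ k + 2) * l ^ (2 * k)) + 2 := by
      have e2 : 8 / ε * W ≤ 8 / ε * (K0 ^ k * l ^ (2 * k)) := mul_le_mul_of_nonneg_left hWl (by positivity)
      have e3 : (1 : ℝ) ≤ l ^ (2 * k) := one_le_pow₀ hl1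
      have e4 : (8 / ε * K0 ^ k + 2) * l ^ (2 * k) = 8 / ε * (K0 ^ k * l ^ (2 * k)) + 2 * l ^ (2 * k) := by ring
      rw [e4]
      linarith
    have e3 : (1 : ℝ) ≤ l ^ (2 * k) := one_le_pow₀ hl1
    have e5 : 0 ≤ 8 / ε * K0 ^ k := by positivity
    have e6 : (2 * (J : ℝ) + 2) * (2 * (4 / ε)) ≤ ε * ((32 / ε) * (8 / ε * K0 ^ k + 2) / ε * l ^ (2 * k)) := by
      have e7 : ε * ((32 / ε) * (8 / ε * K0 ^ k + 2) / ε * l ^ (2 * k)) = (4 * ((8 / ε * K0 ^ k + 2) * l ^ (2 * k))) * (2 * (4 / ε)) := by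
        field_simp
        ring
      rw [e7]
      apply mul_le_mul_of_nonneg_right _ (by positivity)
      have e8 : 1 ≤ (8 / ε * K0 ^ k + 2) * l ^ (2 * k) := by nlinarith
      linarith
    have e9 : (2 * (J : ℝ) + 2) * (2 * (4 / ε)) ≤ ε * (z : ℝ) ^ θ := e6.trans (mul_le_mul_of_nonneg_left h4 hε.le)
    calc (2 * (J : ℝ) + 2) * (2 * (4 / ε)) * (z : ℝ) ^ (-θ) ≤ (ε * (z : ℝ) ^ θ) * (z : ℝ) ^ (-θ) :=
          mul_le_mul_of_nonneg_right e9 hzp.le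
      _ = ε * ((z : ℝ) ^ (-θ) * (z : ℝ) ^ θ) := by ring
      _ = ε := by rw [hzθ, mul_one]
  calc (2 * (J : ℝ) + 2) * (2 * (4 / ε * (z : ℝ) ^ (-θ) * ∏ i, (x i : ℝ))) =
        ((2 * (J : ℝ) + 2) * (2 * (4 / ε)) * (z : ℝ) ^ (-θ)) * ∏ i, (x i : ℝ) := by ring
    _ ≤ ε * ∏ i, (x i : ℝ) := mul_le_mul_of_nonneg_right h5 hprod

end Pool.Agent.E8helper80.FL
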