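import Pool.Agent.E8helper80.FL.Minor2

set_option autoImplicit false

/-! The exponential sum of the difference of two sieve models of comparable small levels. -/

namespace Pool.Agent.E8helper80.FL
open Finset
open Pool.Agent.H807R2.Dav
open Pool.Agent.H373R2.T7

/-- the two models of levels `z ≤ z' ≤ z ^ 2` are close in the sup norm of the exponential sums,
with a power saving in `z` and uniformly in the length `N` -/
theorem sup_model : ∃ z₀ : ℕ, ∀ E : ℕ, ∃ N0 : ℕ, ∀ N : ℕ, N0 ≤ N → ∀ z z' : ℕ, z₀ ≤ z → z ≤ z' → z' ≤ z ^ 2 →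
    (z' : ℝ) ≤ Real.log N ^ E → ∀ α : ℝ,
    ‖∑ n ∈ Icc 1 N, ((lamz z' n - lamz z n : ℝ) : ℂ) * ee ((n : ℝ) * α)‖ ≤ N / √(z : ℝ) := by
  obtain ⟨w₀, hmin⟩ := minor2
  refine ⟨w₀ + 3, fun E => ?_⟩
  set B := E + 6 with hB
  obtain ⟨m1, hmin⟩ := hmin B
  obtain ⟨m2, hlz⟩ := lamz_minor E (E + 1)
  obtain ⟨m4, hapz⟩ := lamz_ap E (2 * E + B + 1)
  obtain ⟨m5, h5⟩ := ev_log' B 2
  obtain ⟨m6, h6⟩ := ev_L' 40
  refine ⟨max (max (max m1 m2) m4) (max (max m5 m6) 4), fun N hN z z' hz0 hzz hz2 hzE α => ?_⟩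
  have hm1 : m1 ≤ N := le_trans (le_trans (le_trans (le_max_left _ _) (le_max_left _ _)) (le_max_left _ _)) hN
  have hm2 : m2 ≤ N := le_trans (le_trans (le_trans (le_max_right _ _) (le_max_left _ _)) (le_max_left _ _)) hN
  have hm4 : m4 ≤ N := le_trans (le_trans (le_max_right _ _) (le_max_left _ _)) hN
  have a5 := h5 N (le_trans (le_trans (le_trans (le_max_left _ _) (le_max_left _ _)) (le_max_right _ _)) hN)
  have hL := h6 N (le_trans (le_trans (le_trans (le_max_right _ _) (le_max_left _ _)) (le_max_right _ _)) hN)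
  have hN4 : 4 ≤ N := le_trans (le_trans (le_max_right _ _) (le_max_right _ _)) hN
  have hNr : (4 : ℝ) ≤ N := by exact_mod_cast hN4
  have hN0 : (0 : ℝ) < N := by linarith
  obtain ⟨L, hLd⟩ : ∃ L, L = Real.log (N : ℝ) := ⟨_, rfl⟩
  rw [← hLd] at a5 hL hzE
  have hL0 : 0 < L := by linarith
  have hL1 : 1 ≤ L := by linarith
  have hLB1 : 1 ≤ L ^ B := one_le_pow₀ hL1
  have hLB0 : 0 < L ^ B := by positivity
  have hsN : √(N : ℝ) ≤ N := by
    rw [Real.sqrt_le_left (by positivity)]; nlinarith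
  have h2LB : 2 * L ^ B ≤ N := a5.trans hsN
  have hz1 : 1 ≤ z := by omega
  have hz1' : 1 ≤ z' := by omega
  have hzr : (z : ℝ) ≤ z' := by exact_mod_cast hzz
  have hzE0 : (z : ℝ) ≤ L ^ E := hzr.trans hzE
  have hz1r : (1 : ℝ) ≤ z := by exact_mod_cast hz1
  have hz0r : (0 : ℝ) < z := by linarith
  have hsz0 : 0 < √(z : ℝ) := Real.sqrt_pos.2 hz0r
  have hsz : √(z : ℝ) ≤ L ^ E := by
    refine le_trans ?_ hzE0
    rw [Real.sqrt_le_left (by positivity)]; nlinarith
  have htarget : (N : ℝ) / L ^ E ≤ N / √(z : ℝ) := div_le_div_of_nonneg_left hN0.le hsz0 hsz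
  -- Dirichlet
  set Q : ℕ := ⌊(N : ℝ) / L ^ B⌋₊ with hQ
  have hNLB : 2 ≤ (N : ℝ) / L ^ B := by rw [le_div_iff₀ hLB0]; exact h2LB
  have hQpos : 0 < Q := by
    rw [hQ, Nat.floor_pos]
    linarith
  obtain ⟨r, hr1, hr2⟩ := Real.exists_rat_abs_sub_le_and_den_le α hQpos
  set q : ℕ := r.den with hq
  have hq1 : 1 ≤ q := r.den_pos
  have hq0 : (0 : ℝ) < q := by exact_mod_cast hq1
  have hrq : ((r : ℚ) : ℝ) = (r.num : ℝ) / q := by
    rw [hq]; exact_mod_cast (Rat.num_div_den r).symm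
  rw [hrq] at hr1
  have hcop : IsCoprime r.num (q : ℤ) := by
    rw [Int.isCoprime_iff_gcd_eq_one]
    have := r.reduced
    rw [Nat.Coprime] at this
    rw [Int.gcd]
    simpa using this
  have hqQ : (q : ℝ) ≤ N / L ^ B := by
    have h1 : (q : ℝ) ≤ Q := by exact_mod_cast hr2
    exact h1.trans (Nat.floor_le (by positivity))
  have hα : |α - (r.num : ℝ) / q| ≤ 1 / (q : ℝ) ^ 2 := by
    refine hr1.trans ?_
    rw [pow_two]
    apply one_div_le_one_div_of_le (by positivity)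
    apply mul_le_mul_of_nonneg_right _ hq0.le
    have h1 : (q : ℝ) ≤ Q := by exact_mod_cast hr2
    linarith
  have hsplit : ∑ n ∈ Icc 1 N, ((lamz z' n - lamz z n : ℝ) : ℂ) * ee ((n : ℝ) * α) =
      ∑ n ∈ Icc 1 N, ((lamz z' n : ℝ) : ℂ) * ee ((n : ℝ) * α) -
      ∑ n ∈ Icc 1 N, ((lamz z n : ℝ) : ℂ) * ee ((n : ℝ) * α) := by
    rw [← sum_sub_distrib]
    apply sum_congr rfl
    intro n _
    push_cast
    ring
  rcases le_or_gt (L ^ B) (q : ℝ) with hqb | hqs
  · -- large denominators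
    have hB2 : L ^ (E + 1 + 5) ≤ L ^ B := pow_le_pow_right₀ hL1 (by omega)
    have hqq := hqQ.trans (div_le_div_of_nonneg_left hN0.le (by positivity) hB2)
    rw [hLd] at hqq hB2 hqb
    have h1 := hlz N hm2 z hz1 (by rw [← hLd]; exact hzE0) q (hB2.trans hqb) hqq r.num hcop α hα
    have h2 := hlz N hm2 z' hz1' (by rw [← hLd]; exact hzE) q (hB2.trans hqb) hqq r.num hcop α hα
    rw [hsplit]
    refine (norm_sub_le _ _).trans ((add_le_add h2 h1).trans ?_)
    rw [← hLd]
    refine le_trans ?_ htarget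
    calc (N : ℝ) / L ^ (E + 1) + N / L ^ (E + 1) = 2 / L * (N / L ^ E) := by rw [pow_succ]; field_simp; ring
      _ ≤ 1 * (N / L ^ E) := by
          apply mul_le_mul_of_nonneg_right _ (by positivity)
          rw [div_le_one hL0]; linarith
      _ = _ := one_mul _
  rcases le_or_gt z q with hzq | hzq
  · -- middle
    have hzB : (z : ℝ) ≤ Real.log N ^ B := by
      rw [← hLd]
      exact hzE0.trans (pow_le_pow_right₀ hL1 (by omega))
    have hqB : (q : ℝ) ≤ Real.log N ^ B := by rw [← hLd]; exact hqs.le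
    have h1 := hmin N hm1 z z (by omega) (by omega) (by nlinarith) hzB q hzq hqB r.num hcop α hα
    have h2 := hmin N hm1 z' z (by omega) (by omega) hz2 hzB q hzq hqB r.num hcop α hα
    rw [hsplit]
    refine (norm_sub_le _ _).trans ((add_le_add h2 h1).trans ?_)
    have : 0 ≤ (N : ℝ) / √(z : ℝ) := by positivity
    linarith
  · -- major
    refine le_trans ?_ htarget
    set f : ℕ → ℝ := fun n => lamz z' n - lamz z n with hf
    have hqz : q ≤ z := by omega
    have hqE : (q : ℝ) ≤ L ^ E := by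
      have : (q : ℝ) ≤ z := by exact_mod_cast hqz
      linarith
    have hAP : ∀ y : ℕ, y ≤ N → ∀ c : ℕ, |∑ n ∈ (Icc 1 y).filter (fun n => n ≡ c [MOD q]), f n| ≤
        2 * (N / L ^ (2 * E + B + 1)) := by
      intro y hy c
      have h1 := hapz N hm4 z' hz1' (by rw [← hLd]; exact hzE) q hq1 (hqz.trans hzz) c y hy
      have h2 := hapz N hm4 z hz1 (by rw [← hLd]; exact hzE0) q hq1 hqz c y hy
      have h3 : ∑ n ∈ (Icc 1 y).filter (fun n => n ≡ c [MOD q]), f n =
          (∑ n ∈ (Icc 1 y).filter (fun n => n ≡ c [MOD q]), lamz z' n -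
            (if c.Coprime q then (y : ℝ) / (Nat.totient q : ℝ) else 0)) -
          (∑ n ∈ (Icc 1 y).filter (fun n => n ≡ c [MOD q]), lamz z n -
            (if c.Coprime q then (y : ℝ) / (Nat.totient q : ℝ) else 0)) := by
        rw [hf]
        simp only [sum_sub_distrib]
        ring
      rw [h3]
      refine (abs_sub _ _).trans ?_
      rw [← hLd] at h1 h2
      linarith
    have hpart : ∀ y : ℕ, y ≤ N → ‖∑ n ∈ Icc 1 y, ((f n : ℝ) : ℂ) * ee (n * ((r.num : ℝ) / q))‖ ≤
        2 * (N / L ^ (E + B + 1)) := by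
      intro y hy
      have h1 := rat_twist f y q hq1 r.num (2 * (N / L ^ (2 * E + B + 1))) (hAP y hy)
      refine h1.trans ?_
      calc (q : ℝ) * (2 * (N / L ^ (2 * E + B + 1))) ≤ L ^ E * (2 * (N / L ^ (2 * E + B + 1))) := by gcongr
        _ = 2 * (N / L ^ (E + B + 1)) := by
            have e : L ^ (2 * E + B + 1) = L ^ E * L ^ (E + B + 1) := by rw [← pow_add]; congr 1; ring
            rw [e]
            field_simp
    set γ : ℝ := α - (r.num : ℝ) / q with hγ
    have h1 := abel_ee (fun n => ((f n : ℝ) : ℂ) * ee (n * ((r.num : ℝ) / q))) γ (2 * (N / L ^ (E + B + 1))) N hpart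
    have h2 : ∑ n ∈ Icc 1 N, ((lamz z' n - lamz z n : ℝ) : ℂ) * ee ((n : ℝ) * α) =
        ∑ n ∈ Icc 1 N, (((f n : ℝ) : ℂ) * ee (n * ((r.num : ℝ) / q))) * ee (n * γ) := by
      apply sum_congr rfl
      intro n _
      rw [mul_assoc, ← ee_add]
      congr 2
      rw [hγ]
      ring
    rw [h2]
    refine h1.trans ?_
    have hβ : |γ| ≤ L ^ B / N := by
      refine hr1.trans ?_
      rw [div_le_div_iff₀ (by positivity) hN0, one_mul]
      have h3 : (N : ℝ) / L ^ B ≤ (Q : ℝ) + 1 := (Nat.lt_floor_add_one _).le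
      rw [div_le_iff₀ hLB0] at h3
      have h4 : (1 : ℝ) ≤ q := by exact_mod_cast hq1
      have h5 : ((Q : ℝ) + 1) * L ^ B ≤ ((Q : ℝ) + 1) * L ^ B * q := le_mul_of_one_le_right (by positivity) h4
      calc (N : ℝ) ≤ ((Q : ℝ) + 1) * L ^ B := h3
        _ ≤ ((Q : ℝ) + 1) * L ^ B * q := h5
        _ = L ^ B * (((Q : ℝ) + 1) * q) := by ring
    have h3 : (N : ℝ) * ‖ee γ - 1‖ ≤ 7 * L ^ B := by
      have h4 : ‖ee γ - 1‖ ≤ 2 * Real.pi * |γ| := by
        have := dd_le γ
        unfold dd at this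
        rw [norm_sub_rev] at this
        exact this
      have h5 : |γ| * N ≤ L ^ B := by
        rw [le_div_iff₀ hN0] at hβ
        exact hβ
      have hpi : Real.pi < 3.15 := Real.pi_lt_d2
      have h6 : 0 ≤ |γ| * N := by positivity
      calc (N : ℝ) * ‖ee γ - 1‖ ≤ N * (2 * Real.pi * |γ|) := by gcongr
        _ = 2 * Real.pi * (|γ| * N) := by ring
        _ ≤ 7 * (|γ| * N) := by
            apply mul_le_mul_of_nonneg_right _ h6
            linarith
        _ ≤ 7 * L ^ B := by linarith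
    calc 2 * (N / L ^ (E + B + 1)) * (1 + N * ‖ee γ - 1‖) ≤ 2 * (N / L ^ (E + B + 1)) * (8 * L ^ B) := by
          apply mul_le_mul_of_nonneg_left _ (by positivity)
          linarith
      _ = (16 / L) * (N / L ^ E) := by
          have e : L ^ (E + B + 1) = L ^ B * L ^ E * L := by rw [← pow_add, ← pow_succ]; congr 1; ring
          rw [e]
          field_simp
          ring
      _ ≤ 1 * (N / L ^ E) := by
          apply mul_le_mul_of_nonneg_right _ (by positivity)
          rw [div_le_one hL0]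
          linarith
      _ = N / L ^ E := one_mul _

end Pool.Agent.E8helper80.FL
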